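import Pool.Agent.Helper77.FQ.Per
import Pool.Agent.Helper85.AE.Smp
import Pool.Agent.Helper25.AE.SD

/-!
# Project FQ (MP_0f6f3f_an), root data: the flat in the coordinates given by the simple roots

`exists_cow`: the fundamental coweights `W i ∈ A`, `al i (W j) = δ_ij`, `H = ∑ al i H • W i`. `eaG hG W c = exp(∑ c i W i)` as an element of `G`; `eaG_add`, `eaG_cont`, `eaG_al`. `exists_comm`: for `a` in the span of the `τ (al k)`, `k ≠ u`, the
element `exp a = eaG (al · a)` is in the commutator subgroup of every subgroup `S` containing the centraliser of `W u`.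
-/

set_option autoImplicit false

open Matrix
open scoped commutatorElement

namespace Pool.Agent.Helper77.FQ

open Pool.Agent.Helper96.SA Pool.Agent.Helper96.TO Pool.Agent.Helper96.FR Pool.Agent.Helper90.OB Pool.Agent.Helper69.SLN Pool.Agent.Helper25.AE
  Pool.Agent.Helper77.AE

variable {L : Type} [LieRing L] [LieAlgebra ℝ L] {N : ℕ} {θ : L ≃ₗ⁅ℝ⁆ L} {b : Module.Basis (Fin N) ℝ L}
  {G : Subgroup (GL (Fin N) ℝ)} {A : Submodule ℝ L} {τ : Module.Dual ℝ A ≃ₗ[ℝ] A} {ι : Type} {al : ι → Module.Dual ℝ A}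

/-- An element of `A` on which the simple roots vanish is zero. -/
theorem eq_zero_of_al (h : CartanBasis θ b) (hS : Smp A al) {H : A} (h0 : ∀ i, al i H = 0) : H = 0 := by
  have h1 : ∀ z : L, ⁅(H : L), z⁆ = 0 := lieSpan_comm hS.gen (by
    rintro x ⟨i, hx | hx⟩
    · have := hx H
      rwa [h0, zero_smul] at this
    · have := hx H
      rwa [LinearMap.neg_apply, h0, neg_zero, zero_smul] at this)
  exact Subtype.ext (center_zero h h1)

/-- The fundamental coweights. -/
theorem exists_cow [Fintype ι] [DecidableEq ι] (h : CartanBasis θ b) (hS : Smp A al) (hl : LinearIndependent ℝ al) :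
    ∃ W : ι → A, (∀ i j, al i (W j) = if i = j then 1 else 0) ∧ ∀ H : A, H = ∑ i, al i H • W i := by
  have hF : Module.Finite ℝ L := Module.Finite.of_basis b
  have h1 : ∀ j, ∃ H : A, ∀ i, al i H = if i = j then 1 else 0 := fun j => Pool.Agent.Helper85.AE.exists_val hl _
  choose W hW using h1
  refine ⟨W, fun i j => hW j i, fun H => ?_⟩
  rw [← sub_eq_zero]
  refine eq_zero_of_al h hS fun i => ?_
  rw [map_sub, map_sum]
  simp_rw [map_smul, hW, smul_eq_mul, mul_ite, mul_one, mul_zero]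
  rw [Finset.sum_ite_eq, if_pos (Finset.mem_univ i), sub_self]

/-- The element of `A` with coordinates `c`. -/
def eaA [Fintype ι] (W : ι → A) (c : ι → ℝ) : A := ∑ i, c i • W i

theorem al_eaA [Fintype ι] [DecidableEq ι] {W : ι → A} (hW : ∀ i j, al i (W j) = if i = j then 1 else 0) (c : ι → ℝ) (i : ι) : al i (eaA W c) = c i := by
  rw [eaA, map_sum]
  simp_rw [map_smul, hW, smul_eq_mul, mul_ite, mul_one, mul_zero]
  rw [Finset.sum_ite_eq, if_pos (Finset.mem_univ i)]

theorem eaA_add [Fintype ι] (W : ι → A) (c c' : ι → ℝ) : eaA W (c + c') = eaA W c + eaA W c' := by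
  rw [eaA, eaA, eaA, ← Finset.sum_add_distrib]
  exact Finset.sum_congr rfl fun i _ => add_smul _ _ _

/-- The flat. -/
noncomputable def eaG [Fintype ι] (hG : IsAdj b G) (W : ι → A) (c : ι → ℝ) : G := ⟨ex (TT_to b (eaA W c : L)), ex_mem hG _⟩

variable [Fintype ι]

theorem eaG_coe (hG : IsAdj b G) (W : ι → A) (c : ι → ℝ) : ((eaG hG W c : G) : GL (Fin N) ℝ) = ex (TT_to b (eaA W c : L)) := rfl

theorem eaG_add (hG : IsAdj b G) (hA : MaxFlat θ A) (W : ι → A) (c c' : ι → ℝ) : eaG hG W (c + c') = eaG hG W c * eaG hG W c' := by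
  refine Subtype.ext ?_
  change ex _ = ex _ * ex _
  rw [← ex_add (TT_commA hA _ _), ← map_add, ← Submodule.coe_add, ← eaA_add]

theorem eaG_cont (hG : IsAdj b G) (W : ι → A) : Continuous (eaG hG W) := by
  have hF : Module.Finite ℝ L := Module.Finite.of_basis b
  refine Continuous.subtype_mk ?_ _
  have h1 : Continuous fun c : ι → ℝ => TT_to b (eaA W c : L) := by
    let f : (ι → ℝ) →ₗ[ℝ] Mat N := (TT_to b).comp (A.subtype.comp (∑ i, (LinearMap.proj i : (ι → ℝ) →ₗ[ℝ] ℝ).smulRight (W i)))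
    have h2 : (fun c : ι → ℝ => TT_to b (eaA W c : L)) = f := by
      funext c
      change _ = TT_to b ((∑ i, (LinearMap.proj i : (ι → ℝ) →ₗ[ℝ] ℝ).smulRight (W i)) c : L)
      rw [LinearMap.sum_apply]
      rfl
    rw [h2]
    exact f.continuous_of_finiteDimensional
  exact continuous_ex.comp h1

/-- The elements of the flat. -/
theorem eaG_al (hG : IsAdj b G) {W : ι → A} (hW : ∀ H : A, H = ∑ i, al i H • W i) (H : A) :
    ((eaG hG W fun i => al i H : G) : GL (Fin N) ℝ) = ex (TT_to b (H : L)) := by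
  rw [eaG_coe, eaA, ← hW H]

/-- Elements commuting with `W u` commute with `ea (t δ_u)`. -/
theorem eaG_single_comm [DecidableEq ι] (hG : IsAdj b G) (W : ι → A) (u : ι) {g : G}
    (hg : ((g : GL (Fin N) ℝ) : Mat N) * TT_to b (W u : L) = TT_to b (W u : L) * ((g : GL (Fin N) ℝ) : Mat N)) (t : ℝ) :
    g * eaG hG W (Pi.single u t) = eaG hG W (Pi.single u t) * g := by
  have e : eaA W (Pi.single u t) = t • W u := by
    rw [eaA, Finset.sum_eq_single u (fun i _ hi => by rw [Pi.single_eq_of_ne hi, zero_smul]) (fun hi => absurd (Finset.mem_univ u) hi), Pi.single_eq_same]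
  refine Subtype.ext ?_
  change (g : GL (Fin N) ℝ) * ex _ = ex _ * (g : GL (Fin N) ℝ)
  refine ex_commute ?_
  rw [e, Submodule.coe_smul, map_smul, Matrix.mul_smul, Matrix.smul_mul, hg]

/-- **Commutators.** -/
theorem exists_comm [DecidableEq ι] [LieAlgebra.IsSimple ℝ L] (s : SD θ b A τ al) (hG : IsAdj b G) {W : ι → A}
    (hW : ∀ i j, al i (W j) = if i = j then 1 else 0) (hW' : ∀ H : A, H = ∑ i, al i H • W i) (u : ι) {S : Subgroup G} (hS : CS b G (W u) S) {a : A}
    (ha : ∃ r : {k : ι // k ≠ u} → ℝ, a = ∑ k, r k • τ (al k)) :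
    ∃ q ∈ commutator S, (q : G) = eaG hG W fun i => al i a := by
  obtain ⟨r, rfl⟩ := ha
  obtain ⟨q, hq, hq2⟩ := ex_mem_commutator s.h hG s.hA s.hτ hS (H := ∑ k, r k • τ (al k)) (by
    refine Submodule.sum_mem _ fun k _ => Submodule.smul_mem _ _ (Submodule.subset_span ⟨al k, s.hS.root k, ?_, rfl⟩)
    rw [hW, if_neg k.2])
  refine ⟨q, hq, Subtype.ext ?_⟩
  rw [hq2, eaG_al hG hW']

/-- The product with `ea (t δ_u)`. -/
theorem eaG_single_mul [DecidableEq ι] (hG : IsAdj b G) (hA : MaxFlat θ A) (W : ι → A) (u : ι) (t : ℝ) (a : A) :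
    eaG hG W (Pi.single u t) * eaG hG W (fun i => al i a) = eaG hG W fun i => al i a + if i = u then t else 0 := by
  rw [← eaG_add hG hA]
  congr 1
  funext i
  rw [Pi.add_apply, Pi.single_apply]
  ring

/-- For large `n` the element is in the closed chamber. -/
theorem eventually_chamber [DecidableEq ι] (u : ι) {a : A} (ha : ∀ i, i ≠ u → 0 ≤ al i a) :
    ∀ᶠ n : ℕ in Filter.atTop, ∀ i, 0 ≤ al i a + if i = u then (n : ℝ) else 0 := by
  have h1 : Filter.Tendsto (fun n : ℕ => (n : ℝ)) Filter.atTop Filter.atTop := tendsto_natCast_atTop_atTop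
  filter_upwards [h1.eventually (Filter.eventually_ge_atTop (-al u a))] with n hn i
  by_cases hi : i = u
  · rw [if_pos hi, hi]
    linarith
  · rw [if_neg hi, add_zero]
    exact ha i hi

end Pool.Agent.Helper77.FQ
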