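import Pool.Agent.Helper25.AE.SD
import Mathlib.LinearAlgebra.Eigenspace.Pi
import Mathlib.LinearAlgebra.Trace

/-!
# Project FQ (MP_0f6f3f_an), layer END: projections onto the restricted root spaces

`rsp_indep`, `iSup_rsp`: `L` is the direct sum of the weight spaces of `A`. `roots_finite`. `exists_wproj`: the projections.
-/

set_option autoImplicit false

namespace Pool.Agent.Helper77.FQ

open Pool.Agent.Helper96.SA Pool.Agent.Helper96.TO Pool.Agent.Helper69.SLN Pool.Agent.Helper77.LA Pool.Agent.Helper77.AE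

variable {L : Type} [LieRing L] [LieAlgebra ℝ L] {N : ℕ} {θ : L ≃ₗ⁅ℝ⁆ L} {b : Module.Basis (Fin N) ℝ L} {A : Submodule ℝ L}

theorem rsp_eq (φ : Module.Dual ℝ A) : rsp A φ = ⨅ a : A, (LieAlgebra.ad ℝ L (a : L)).eigenspace (φ a) := by
  ext x
  rw [Submodule.mem_iInf]
  refine forall_congr' fun a => ?_
  rw [Module.End.mem_eigenspace_iff]
  rfl

theorem rsp_indep (hA : MaxFlat θ A) : iSupIndep fun φ : Module.Dual ℝ A => rsp A φ := by
  have h1 : iSupIndep fun χ : A → ℝ => ⨅ a : A, (LieAlgebra.ad ℝ L (a : L)).maxGenEigenspace (χ a) := by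
    refine Module.End.independent_iInf_maxGenEigenspace_of_forall_mapsTo _ fun i j c => ?_
    refine Module.End.mapsTo_maxGenEigenspace_of_comm ?_ c
    refine LinearMap.ext fun x => ?_
    have h1 := leibniz_lie (j : L) (i : L) x
    rw [hA.abel _ j.2 _ i.2, zero_lie, zero_add] at h1
    exact h1
  have h2 : Function.Injective fun φ : Module.Dual ℝ A => (fun a => φ a : A → ℝ) := fun φ ψ h => LinearMap.ext fun a => congrFun h a
  refine (h1.comp h2).mono fun φ => ?_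
  rw [rsp_eq]
  exact iInf_mono fun a => (LieAlgebra.ad ℝ L (a : L)).genEigenspace_le_maximal (φ a) 1

theorem iSup_rsp (h : CartanBasis θ b) (hA : MaxFlat θ A) : ⨆ φ : Module.Dual ℝ A, rsp A φ = ⊤ := by
  rw [eq_top_iff, ← span_weights h hA, Submodule.span_le]
  rintro x ⟨φ, hφ⟩
  exact Submodule.mem_iSup_of_mem φ hφ

theorem roots_finite (b : Module.Basis (Fin N) ℝ L) (hA : MaxFlat θ A) : (rootsL A).Finite := by
  have hF : Module.Finite ℝ L := Module.Finite.of_basis b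
  refine (WellFoundedGT.finite_ne_bot_of_iSupIndep (rsp_indep hA)).subset ?_
  rintro φ ⟨-, x, hx0, hx⟩ h1
  have h2 : x ∈ rsp A φ := hx
  rw [h1, Submodule.mem_bot] at h2
  exact hx0 h2

/-- The projections onto the weight spaces. -/
theorem exists_wproj (h : CartanBasis θ b) (hA : MaxFlat θ A) : ∃ P : Module.Dual ℝ A → (L →ₗ[ℝ] L),
    (∀ φ x, P φ x ∈ rsp A φ) ∧ (∀ φ, ∀ x ∈ rsp A φ, P φ x = x) ∧ ∀ φ ψ, φ ≠ ψ → ∀ x ∈ rsp A ψ, P φ x = 0 := by
  have hc : ∀ φ : Module.Dual ℝ A, IsCompl (rsp A φ) (⨆ (ψ) (_ : ψ ≠ φ), rsp A ψ) := by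
    intro φ
    refine ⟨rsp_indep hA φ, codisjoint_iff.2 ?_⟩
    rw [eq_top_iff, ← iSup_rsp h hA]
    refine iSup_le fun ψ => ?_
    by_cases h1 : ψ = φ
    · subst h1
      exact le_sup_left
    · exact (le_iSup₂ (f := fun (ψ : Module.Dual ℝ A) (_ : ψ ≠ φ) => rsp A ψ) ψ h1).trans le_sup_right
  refine ⟨fun φ => (rsp A φ).subtype ∘ₗ (rsp A φ).linearProjOfIsCompl _ (hc φ), fun φ x => Subtype.coe_prop _, fun φ x hx => ?_, fun φ ψ hne x hx => ?_⟩
  · exact congrArg Subtype.val (Submodule.linearProjOfIsCompl_apply_left (hc φ) ⟨x, hx⟩)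
  · have h1 : (rsp A φ).linearProjOfIsCompl _ (hc φ) x = 0 := by
      refine (Submodule.linearProjOfIsCompl_apply_eq_zero_iff (hc φ)).2 ?_
      exact Submodule.mem_iSup_of_mem ψ (Submodule.mem_iSup_of_mem hne.symm hx)
    simp only [LinearMap.comp_apply, h1, map_zero]

/-- The sum of the projections over a finite set which contains all weights. -/
theorem wproj_sum (h : CartanBasis θ b) (hA : MaxFlat θ A) {P : Module.Dual ℝ A → (L →ₗ[ℝ] L)}
    (h2 : ∀ φ, ∀ x ∈ rsp A φ, P φ x = x) (h3 : ∀ φ ψ, φ ≠ ψ → ∀ x ∈ rsp A ψ, P φ x = 0) {S : Finset (Module.Dual ℝ A)}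
    (hS : ∀ φ, φ ∈ rootsL A ∨ φ = 0 → φ ∈ S) (x : L) : ∑ φ ∈ S, P φ x = x := by
  have hx : x ∈ (⊤ : Submodule ℝ L) := trivial
  rw [← iSup_rsp h hA] at hx
  induction hx using Submodule.iSup_induction' with
  | mem ψ x hx =>
    by_cases hψ : ψ ∈ S
    · rw [Finset.sum_eq_single ψ (fun φ _ hne => h3 φ ψ hne x hx) (fun h4 => absurd hψ h4), h2 ψ x hx]
    · have h4 : x = 0 := Wv.eq_zero hx (fun h5 => hψ (hS ψ (Or.inl h5))) fun h5 => hψ (hS ψ (Or.inr h5))
      rw [h4]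
      simp
  | zero => simp
  | add x y _ _ h4 h5 => simp only [map_add, Finset.sum_add_distrib, h4, h5]

end Pool.Agent.Helper77.FQ
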