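import Pool.Agent.Helper77.FQ.Par
import Pool.Agent.Helper77.FQ.Cow
import Pool.Agent.Helper90.FQ.Nr1

/-!
# Project FQ (MP_0f6f3f_an), group data: the stabiliser of the line of the highest weight vector, and the clauses `par`, `par'`

`pl_stab`: if `RT M` maps `v0 W l` to a multiple `c • v0 W l`, `c ≠ 0`, then `M` preserves the coordinate subspace of the weights with positive coefficient at `l`. `eW W`: the weight basis of `L`. `par_W`, `par_W'`: for `g` in a compact set with
`RT (hat g) v0 ∈ ℝ v0`, `RT (hat g)ᵀ v0 ∈ ℝ v0`, the conjugates by `eaG (single l (-t))`, `eaG (single l t)`, `0 ≤ t`, are in a compact set.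
-/

set_option autoImplicit false

open Matrix Set Filter Topology

namespace Pool.Agent.Helper77.FQ

open Pool.Agent.Helper96.SA Pool.Agent.Helper96.TO Pool.Agent.Helper35.TZ Pool.Agent.Helper2.BC Pool.Agent.Helper72.FQ Pool.Agent.Helper90.FQ
  Pool.Agent.Helper77.AE Pool.Agent.Helper25.AE

variable {L : Type} [LieRing L] [LieAlgebra ℝ L] {N : ℕ} {θ : L ≃ₗ⁅ℝ⁆ L} {b : Module.Basis (Fin N) ℝ L} {A : Submodule ℝ L}
  {ι : Type} [Fintype ι] {al : ι → Module.Dual ℝ A}

/-- Cramer's rule. -/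
theorem row_zero {d : Type} [Fintype d] [DecidableEq d] {M : Matrix d d ℝ} (hM : M.det ≠ 0) {v : d → ℝ}
    (h : ∀ k, (M.updateRow k v).det = 0) : v = 0 := by
  have h1 : Mᵀ.cramer v = 0 := by
    funext k
    rw [Matrix.cramer_transpose_apply, h k, Pi.zero_apply]
  have h2 := Matrix.mulVec_cramer Mᵀ v
  rw [h1, Matrix.mulVec_zero, Matrix.det_transpose] at h2
  exact (smul_eq_zero.1 h2.symm).resolve_left hM

/-- The stabiliser of the line. -/
theorem pl_stab (W : Wb b A al) (l : ι) {M : Mat N} {c : ℝ} (hc : c ≠ 0) (h : RT M (v0 W l) = c • v0 W l) {i k : Fin N}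
    (hi : ¬ 0 < W.cls i l) (hk : 0 < W.cls k l) : M i k = 0 := by
  classical
  rw [v0, ← PL_mul] at h
  have hI : ∀ I : Fl W l → Fin N, (((M * E0 W l).submatrix I id).det : ℝ) = c * ((E0 W l).submatrix I id).det := fun I => congrFun h I
  have hE : ∀ (q : Fin N) (m : Fl W l), (M * E0 W l) q m = M q m := by
    intro q m
    rw [E0, Matrix.mul_apply, Finset.sum_eq_single m.1]
    · rw [Matrix.submatrix_apply, id, Matrix.one_apply_eq, mul_one]
    · intro j _ hj
      rw [Matrix.submatrix_apply, id, Matrix.one_apply_ne hj, mul_zero]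
    · intro h2
      exact absurd (Finset.mem_univ _) h2
  have h1 : ((M * E0 W l).submatrix (Subtype.val : Fl W l → Fin N) id).det ≠ 0 := by
    rw [hI]
    have := v0_self W l
    rw [v0, PL_apply] at this
    rw [this, mul_one]
    exact hc
  have h2 : (fun m : Fl W l => M i m) = 0 := by
    refine row_zero h1 fun q => ?_
    have e1 : ((M * E0 W l).submatrix (Subtype.val : Fl W l → Fin N) id).updateRow q (fun m : Fl W l => M i m) =
        (M * E0 W l).submatrix (Function.update (Subtype.val : Fl W l → Fin N) q i) id := by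
      ext r m
      rw [Matrix.updateRow_apply, Matrix.submatrix_apply, Matrix.submatrix_apply]
      by_cases hr : r = q
      · rw [if_pos hr, hr, Function.update_self]
        exact (hE i m).symm
      · rw [if_neg hr, Function.update_of_ne hr]
    rw [e1, hI]
    have e2 : ((E0 W l).submatrix (Function.update (Subtype.val : Fl W l → Fin N) q i) id).det = 0 := by
      refine Matrix.det_eq_zero_of_row_eq_zero q fun m => ?_
      rw [Matrix.submatrix_apply, Function.update_self, E0, Matrix.submatrix_apply]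
      refine Matrix.one_apply_ne fun h3 => hi ?_
      have h4 : i = (m : Fin N) := h3
      rw [h4]
      exact m.2
    rw [e2, mul_zero]
  exact congrFun h2 ⟨k, hk⟩

/-- An invertible matrix does not annihilate `v0`. -/
theorem pl_ne (W : Wb b A al) (l : ι) {M M' : Mat N} (hM : M' * M = 1) {c : ℝ} (h : RT M (v0 W l) = c • v0 W l) : c ≠ 0 := by
  intro h0
  rw [h0, zero_smul] at h
  have h1 := congrArg (RT M') h
  rw [← RT_mul, hM, RT_one, map_zero] at h1
  exact v0_ne W l h1

/-- The weight basis of `L`. -/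
noncomputable def eW (W : Wb b A al) : Module.Basis (Fin N) ℝ L :=
  b.map (LinearEquiv.ofLinear (toLin b b W.O) (toLin b b W.Oᵀ) (by rw [← toLin_mul b b b, W.h2, toLin_one]) (by rw [← toLin_mul b b b, W.h1, toLin_one]))

theorem eW_apply (W : Wb b A al) (k : Fin N) : eW W k = toLin b b W.O (b k) := by
  rw [eW, Module.Basis.map_apply]
  rfl

theorem eW_repr (W : Wb b A al) (x : L) : (eW W).repr x = b.repr (toLin b b W.Oᵀ x) := rfl

theorem eW_ac (W : Wb b A al) (g : GL (Fin N) ℝ) (i k : Fin N) : (eW W).repr (ac b g (eW W k)) i = hat W.O (g : Mat N) i k := by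
  rw [eW_repr, eW_apply, ac, hat]
  have e1 : toLin b b W.Oᵀ (toLin b b (g : Mat N) (toLin b b W.O (b k))) = toLin b b (W.Oᵀ * (g : Mat N) * W.O) (b k) := by
    rw [toLin_mul b b b, toLin_mul b b b]
    rfl
  rw [e1]
  have e2 := LinearMap.toMatrix_apply b b (toLin b b (W.Oᵀ * (g : Mat N) * W.O)) i k
  rw [LinearMap.toMatrix_toLin] at e2
  exact e2.symm

theorem eW_EB (W : Wb b A al) (a : A) : EB (a : L) (eW W) fun k => W.wt k a := by
  intro k
  rw [eW_apply]
  have e0 : ⁅(a : L), toLin b b W.O (b k)⁆ = toLin b b (TT_to b (a : L)) (toLin b b W.O (b k)) := by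
    rw [toLin_TT_to]
  rw [e0, W.dg a]
  have e1 : toLin b b (W.O * diagonal (fun k => W.wt k a) * W.Oᵀ) (toLin b b W.O (b k)) = toLin b b (W.O * diagonal (fun k => W.wt k a) * W.Oᵀ * W.O) (b k) := by
    conv_rhs => rw [toLin_mul b b b]
    rfl
  rw [e1, Matrix.mul_assoc, W.h1, Matrix.mul_one, toLin_mul b b b, LinearMap.comp_apply, Matrix.toLin_self, Finset.sum_eq_single k]
  · rw [Matrix.diagonal_apply_eq, map_smul]
  · intro j _ hj
    rw [Matrix.diagonal_apply_ne _ hj, zero_smul]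
  · intro h
    exact absurd (Finset.mem_univ k) h

section Cow

variable [DecidableEq ι] {w : ι → A}

theorem wt_cow (W : Wb b A al) (hw : ∀ i j, al i (w j) = if i = j then 1 else 0) (k : Fin N) (l : ι) : W.wt k (w l) = W.cls k l := by
  rw [W.eq, LinearMap.sum_apply, Finset.sum_eq_single l]
  · rw [LinearMap.smul_apply, hw, if_pos rfl, smul_eq_mul, mul_one]
  · intro j _ hj
    rw [LinearMap.smul_apply, hw, if_neg hj, smul_zero]
  · intro h
    exact absurd (Finset.mem_univ l) h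

/-- `g` preserves `n_l`. -/
theorem stab_pos (W : Wb b A al) (hw : ∀ i j, al i (w j) = if i = j then 1 else 0) (l : ι) {g : GL (Fin N) ℝ}
    (h : ∃ c : ℝ, RT (hat W.O (g : Mat N)) (v0 W l) = c • v0 W l) :
    ∀ x ∈ es ((w l : A) : L) (Ioi 0), ac b g x ∈ es ((w l : A) : L) (Ioi 0) := by
  obtain ⟨c, hc⟩ := h
  have hM : hat W.O (((g⁻¹ : GL (Fin N) ℝ) : Mat N)) * hat W.O (g : Mat N) = 1 := by
    rw [← hat_mul W.h2, ← Units.val_mul, inv_mul_cancel, Units.val_one, hat_one W.h1]
  have hc0 := pl_ne W l hM hc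
  have hE := eW_EB W (w l)
  intro x hx
  rw [← (eW W).sum_repr x, map_sum]
  refine Submodule.sum_mem _ fun k _ => ?_
  rw [map_smul]
  by_cases hk : 0 < W.cls k l
  · refine Submodule.smul_mem _ _ ((mem_es hE).2 fun i hi => ?_)
    rw [eW_ac]
    refine pl_stab W l hc0 hc (fun h1 => hi ?_) hk
    change 0 < W.wt i (w l)
    rw [wt_cow W hw]
    exact_mod_cast h1
  · rw [(mem_es hE).1 hx k, zero_smul]
    · exact Submodule.zero_mem _
    · change ¬ 0 < W.wt k (w l)
      rw [wt_cow W hw]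
      exact_mod_cast hk

/-- The transposed statement: `g` preserves the opposite parabolic. -/
theorem stab_neg (W : Wb b A al) (hw : ∀ i j, al i (w j) = if i = j then 1 else 0) (l : ι) {g : GL (Fin N) ℝ}
    (h : ∃ c : ℝ, RT (hat W.O (g : Mat N))ᵀ (v0 W l) = c • v0 W l) :
    ∀ x ∈ es ((w l : A) : L) (Iic 0), ac b g x ∈ es ((w l : A) : L) (Iic 0) := by
  obtain ⟨c, hc⟩ := h
  have hM : (hat W.O (((g⁻¹ : GL (Fin N) ℝ) : Mat N)))ᵀ * (hat W.O (g : Mat N))ᵀ = 1 := by
    rw [← Matrix.transpose_mul, ← hat_mul W.h2, ← Units.val_mul, mul_inv_cancel, Units.val_one, hat_one W.h1, Matrix.transpose_one]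
  have hc0 := pl_ne W l hM hc
  have hE := eW_EB W (w l)
  intro x hx
  rw [← (eW W).sum_repr x, map_sum]
  refine Submodule.sum_mem _ fun k _ => ?_
  rw [map_smul]
  by_cases hk : 0 < W.cls k l
  · rw [(mem_es hE).1 hx k, zero_smul]
    · exact Submodule.zero_mem _
    · change ¬ W.wt k (w l) ≤ 0
      rw [wt_cow W hw, not_le]
      exact_mod_cast hk
  · refine Submodule.smul_mem _ _ ((mem_es hE).2 fun i hi => ?_)
    rw [eW_ac]
    have h1 : 0 < W.cls i l := by
      change ¬ W.wt i (w l) ≤ 0 at hi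
      rw [wt_cow W hw, not_le] at hi
      exact_mod_cast hi
    exact pl_stab W l hc0 hc hk h1

/-- The hypothesis on the centraliser, for the fundamental coweights. -/
theorem cow_line (h : CartanBasis θ b) (hA : MaxFlat θ A) (hS : Smp A al) (hw : ∀ i j, al i (w j) = if i = j then 1 else 0) (l : ι) :
    ∀ Z : L, θ Z = -Z → (∀ y : L, ⁅((w l : A) : L), y⁆ = 0 → ⁅Z, y⁆ = 0) → ∃ c : ℝ, Z = c • ((w l : A) : L) := by
  intro Z hZ hc
  have hZA : Z ∈ A := hA.max Z hZ fun y hy => hc y (hA.abel _ (w l).2 y hy)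
  have h1 : ∀ i, i ≠ l → al i ⟨Z, hZA⟩ = 0 := by
    intro i hi
    obtain ⟨-, x, hx0, hx⟩ := hS.root i
    have h2 := hx (w l)
    rw [hw, if_neg hi, zero_smul] at h2
    have h3 := hc x h2
    have h4 := hx ⟨Z, hZA⟩
    have h5 : al i ⟨Z, hZA⟩ • x = 0 := by
      rw [← h4]
      exact h3
    exact (smul_eq_zero.1 h5).resolve_right hx0
  have h2 : (⟨Z, hZA⟩ : A) - al l ⟨Z, hZA⟩ • w l = 0 := by
    refine eq_zero_of_al h hS fun i => ?_
    rw [map_sub, map_smul, hw, smul_eq_mul]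
    by_cases hi : i = l
    · rw [if_pos hi, hi, mul_one, sub_self]
    · rw [if_neg hi, mul_zero, sub_zero, h1 i hi]
  refine ⟨al l ⟨Z, hZA⟩, ?_⟩
  have h3 := congrArg Subtype.val (sub_eq_zero.1 h2)
  exact h3

theorem cow_ne (hw : ∀ i j, al i (w j) = if i = j then 1 else 0) (l : ι) : ((w l : A) : L) ≠ 0 := by
  intro h0
  have h1 : w l = 0 := Subtype.ext h0
  have h2 := hw l l
  rw [h1, map_zero, if_pos rfl] at h2
  exact zero_ne_one h2

theorem eaA_single (w : ι → A) (l : ι) (t : ℝ) : eaA w (Pi.single l t) = t • w l := by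
  rw [eaA, Finset.sum_eq_single l (fun i _ hi => by rw [Pi.single_eq_of_ne hi, zero_smul]) (fun hi => absurd (Finset.mem_univ l) hi), Pi.single_eq_same]

/-- **The clause `par`.** -/
theorem par_W (h : CartanBasis θ b) (hA : MaxFlat θ A) (hS : Smp A al) {G : Subgroup (GL (Fin N) ℝ)} (hG : IsAdj b G) (W : Wb b A al)
    (hw : ∀ i j, al i (w j) = if i = j then 1 else 0) (l : ι) {B : Set G} (hB : IsCompact B) :
    ∃ B' : Set G, IsCompact B' ∧ ∀ g ∈ B, (∃ c : ℝ, RT (hat W.O ((g : GL (Fin N) ℝ) : Mat N)) (v0 W l) = c • v0 W l) → ∀ t : ℝ, 0 ≤ t →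
      eaG hG w (Pi.single l (-t)) * g * eaG hG w (Pi.single l t) ∈ B' := by
  have hH : θ ((w l : A) : L) = -((w l : A) : L) := hA.neg _ (w l).2
  have hH' : θ (-((w l : A) : L)) = -(-((w l : A) : L)) := by rw [map_neg, hH]
  obtain ⟨e, d, he, hE⟩ := exists_eb h hH
  obtain ⟨B', hB', hf⟩ := par_gen h hG hH' (neg_ne_zero.2 (cow_ne hw l)) (fun Z hZ hc => by
    obtain ⟨c, hc'⟩ := cow_line h hA hS hw l Z hZ fun y hy => hc y (by rw [neg_lie, hy, neg_zero])
    exact ⟨-c, by rw [smul_neg, neg_smul, neg_neg, hc']⟩) hB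
  refine ⟨B', hB', fun g hg hc t ht => hf g hg ?_ t ht _ ?_⟩
  · refine perp_stab h hE.neg hH' (hG.aut g.2) ?_
    intro x hx
    rw [mem_es_neg hE] at hx ⊢
    have e1 : Neg.neg ⁻¹' Iio (0 : ℝ) = Ioi 0 := by
      ext t
      simp
    rw [e1] at hx ⊢
    exact stab_pos W hw l hc x hx
  · change ex (TT_to b (eaA w (Pi.single l (-t)) : L)) * (g : GL (Fin N) ℝ) * ex (TT_to b (eaA w (Pi.single l t) : L)) = _
    rw [eaA_single, eaA_single, Submodule.coe_smul, Submodule.coe_smul, map_smul, map_smul, map_neg, smul_neg, smul_neg, neg_smul, neg_neg]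

/-- **The clause `par'`.** -/
theorem par_W' (h : CartanBasis θ b) (hA : MaxFlat θ A) (hS : Smp A al) {G : Subgroup (GL (Fin N) ℝ)} (hG : IsAdj b G) (W : Wb b A al)
    (hw : ∀ i j, al i (w j) = if i = j then 1 else 0) (l : ι) {B : Set G} (hB : IsCompact B) :
    ∃ B' : Set G, IsCompact B' ∧ ∀ g ∈ B, (∃ c : ℝ, RT (hat W.O ((g : GL (Fin N) ℝ) : Mat N))ᵀ (v0 W l) = c • v0 W l) → ∀ t : ℝ, 0 ≤ t →
      eaG hG w (Pi.single l t) * g * eaG hG w (Pi.single l (-t)) ∈ B' := by
  have hH : θ ((w l : A) : L) = -((w l : A) : L) := hA.neg _ (w l).2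
  obtain ⟨B', hB', hf⟩ := par_gen h hG hH (cow_ne hw l) (cow_line h hA hS hw l) hB
  refine ⟨B', hB', fun g hg hc t ht => hf g hg (stab_neg W hw l hc) t ht _ ?_⟩
  change ex (TT_to b (eaA w (Pi.single l t) : L)) * (g : GL (Fin N) ℝ) * ex (TT_to b (eaA w (Pi.single l (-t)) : L)) = _
  rw [eaA_single, eaA_single, Submodule.coe_smul, Submodule.coe_smul, map_smul, map_smul]

end Cow

end Pool.Agent.Helper77.FQ
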