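import Pool.Agent.Helper77.FQ.Cow
import Pool.Agent.Helper95.FQ.Cart

/-!
# Project FQ (MP_0f6f3f_an), group data: the simple roots in terms of the highest weights

`T l` functionals with `T l (τ (al k)) = 0` for `k ≠ l` and `0 < T l (τ (al l))` (positive multiples of the fundamental weights), `cC i l = al i (τ (al l)) / T l (τ (al l))`. `cC_top`: `∑ l, cC i l * T l a = al i a`; `cC_nonpos`, `cC_pos`.
-/

set_option autoImplicit false

namespace Pool.Agent.Helper77.FQ

open Pool.Agent.Helper96.SA Pool.Agent.Helper96.TO Pool.Agent.Helper69.SLN Pool.Agent.Helper25.AE Pool.Agent.Helper77.AE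

variable {L : Type} [LieRing L] [LieAlgebra ℝ L] {N : ℕ} {θ : L ≃ₗ⁅ℝ⁆ L} {b : Module.Basis (Fin N) ℝ L} {A : Submodule ℝ L}
  {τ : Module.Dual ℝ A ≃ₗ[ℝ] A} {ι : Type} [Fintype ι] [DecidableEq ι] {al : ι → Module.Dual ℝ A}

/-- The coefficients of the simple roots. -/
noncomputable def cC (τ : Module.Dual ℝ A ≃ₗ[ℝ] A) (al T : ι → Module.Dual ℝ A) (i l : ι) : ℝ := al i (τ (al l)) / T l (τ (al l))

/-- Elements of `A` in terms of the coroots. -/
theorem coord_tau {W : ι → A} (hW' : ∀ H : A, H = ∑ i, al i H • W i) (a : A) : a = ∑ k, (τ.symm a) (W k) • τ (al k) := by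
  have h1 : τ.symm a = ∑ k, (τ.symm a) (W k) • al k := by
    refine LinearMap.ext fun H => ?_
    conv_lhs => rw [hW' H]
    rw [map_sum, LinearMap.sum_apply]
    exact Finset.sum_congr rfl fun i _ => by rw [map_smul, LinearMap.smul_apply, smul_eq_mul, smul_eq_mul, mul_comm]
  have h2 := congrArg τ h1
  rw [LinearEquiv.apply_symm_apply, map_sum] at h2
  simp_rw [map_smul] at h2
  exact h2

theorem cC_top {W : ι → A} (hW' : ∀ H : A, H = ∑ i, al i H • W i) {T : ι → Module.Dual ℝ A} (hT : ∀ l k, k ≠ l → T l (τ (al k)) = 0)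
    (hT0 : ∀ l, 0 < T l (τ (al l))) (i : ι) (a : A) : ∑ l, cC τ al T i l * T l a = al i a := by
  rw [coord_tau (τ := τ) hW' a]
  have h1 : ∀ φ : Module.Dual ℝ A, φ (∑ k, (τ.symm a) (W k) • τ (al k)) = ∑ k, (τ.symm a) (W k) * φ (τ (al k)) := by
    intro φ
    rw [map_sum]
    exact Finset.sum_congr rfl fun k _ => by rw [map_smul, smul_eq_mul]
  simp_rw [h1, Finset.mul_sum]
  rw [Finset.sum_comm]
  refine Finset.sum_congr rfl fun k _ => ?_
  rw [Finset.sum_eq_single k]
  · rw [cC]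
    have := (hT0 k).ne'
    field_simp
  · intro l _ hl
    rw [hT l k (Ne.symm hl), mul_zero, mul_zero]
  · intro h2
    exact absurd (Finset.mem_univ k) h2

/-- In coordinates. -/
theorem cC_top' {W : ι → A} (hW : ∀ i j, al i (W j) = if i = j then 1 else 0) (hW' : ∀ H : A, H = ∑ i, al i H • W i)
    {T : ι → Module.Dual ℝ A} (hT : ∀ l k, k ≠ l → T l (τ (al k)) = 0) (hT0 : ∀ l, 0 < T l (τ (al l))) (c : ι → ℝ) (i : ι) :
    ∑ l, cC τ al T i l * ∑ j, T l (W j) * c j = c i := by
  have h1 : ∀ l, ∑ j, T l (W j) * c j = T l (eaA W c) := by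
    intro l
    rw [eaA, map_sum]
    exact Finset.sum_congr rfl fun j _ => by rw [map_smul, smul_eq_mul, mul_comm]
  simp_rw [h1]
  rw [cC_top hW' hT hT0, al_eaA hW]

theorem cC_nonpos (s : SD θ b A τ al) {T : ι → Module.Dual ℝ A} (hT0 : ∀ l, 0 < T l (τ (al l))) {i l : ι} (hil : i ≠ l) :
    cC τ al T i l ≤ 0 := by
  refine div_nonpos_of_nonpos_of_nonneg ?_ (hT0 l).le
  rw [s.symm l i]
  exact s.ob i l hil

theorem cC_self_pos (s : SD θ b A τ al) {T : ι → Module.Dual ℝ A} (hT0 : ∀ l, 0 < T l (τ (al l))) (l : ι) : 0 < cC τ al T l l :=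
  div_pos (s.pos l) (hT0 l)

/-- A combination of the simple roots `≠ j` which is positive on the coroots `≠ j` has nonnegative coefficients. -/
theorem coef_nonneg (s : SD θ b A τ al) {j : ι} {r : {k : ι // k ≠ j} → ℝ} (hr : ∀ i, i ≠ j → 0 ≤ al i (∑ k, r k • τ (al k)))
    (k : {k : ι // k ≠ j}) : 0 ≤ r k := by
  set P : Module.Dual ℝ A := ∑ k, max (r k) 0 • al (k : ι) with hP
  set M : Module.Dual ℝ A := ∑ k, max (-r k) 0 • al (k : ι) with hM
  have e1 : ∑ k, r k • τ (al (k : ι)) = τ P - τ M := by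
    rw [hP, hM, map_sum, map_sum, ← Finset.sum_sub_distrib]
    refine Finset.sum_congr rfl fun k _ => ?_
    rw [map_smul, map_smul, ← sub_smul]
    congr 1
    rcases le_total 0 (r k) with h1 | h1
    · rw [max_eq_left h1, max_eq_right (by linarith), sub_zero]
    · rw [max_eq_right h1, max_eq_left (by linarith)]
      ring
  have h1 : 0 ≤ M (τ P - τ M) := by
    rw [← e1, hM, LinearMap.sum_apply]
    refine Finset.sum_nonneg fun k _ => ?_
    rw [LinearMap.smul_apply, smul_eq_mul]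
    exact mul_nonneg (le_max_right _ _) (hr _ k.2)
  have h2 : M (τ P) ≤ 0 := by
    rw [hM, hP, map_sum, LinearMap.sum_apply]
    refine Finset.sum_nonpos fun k _ => ?_
    rw [LinearMap.smul_apply, map_sum, smul_eq_mul, Finset.mul_sum]
    refine Finset.sum_nonpos fun l _ => ?_
    rw [map_smul, map_smul, smul_eq_mul]
    by_cases hkl : k = l
    · subst hkl
      rcases le_total 0 (r k) with h3 | h3
      · rw [max_eq_right (by linarith : -r k ≤ 0), zero_mul]
      · rw [max_eq_right h3, zero_mul, mul_zero]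
    · have h4 : al (k : ι) (τ (al (l : ι))) ≤ 0 := by
        rw [s.symm l k]
        exact s.ob k l fun h5 => hkl (Subtype.ext h5)
      exact mul_nonpos_of_nonneg_of_nonpos (le_max_right _ _) (mul_nonpos_of_nonneg_of_nonpos (le_max_right _ _) h4)
  have h3 : M = 0 := by
    by_contra h0
    have := tau_pos s.hτ s.h s.hA h0
    rw [map_sub] at h1
    linarith
  have h4 : LinearIndependent ℝ fun k : {k : ι // k ≠ j} => al (k : ι) := s.li.comp _ Subtype.val_injective
  have h5 := (Fintype.linearIndependent_iff.1 h4) (fun k => max (-r k) 0) (by rw [← h3, hM]) k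
  have h6 := le_max_left (-r k) 0
  rw [h5] at h6
  linarith

theorem cC_pos (s : SD θ b A τ al) {T : ι → Module.Dual ℝ A} (hT0 : ∀ l, 0 < T l (τ (al l))) (j : ι) :
    ∃ u : ι → ℝ, (∀ i, 0 ≤ u i) ∧ u j = 0 ∧ ∀ l, l ≠ j → 0 < ∑ i, u i * cC τ al T i l := by
  obtain ⟨r, hr⟩ := Pool.Agent.Helper95.FQ.exists_val s j fun _ => 1
  have hr0 : ∀ k, 0 ≤ r k := coef_nonneg s fun i hi => by rw [hr i hi]; exact zero_le_one
  refine ⟨fun i => if h : i ≠ j then r ⟨i, h⟩ else 0, fun i => ?_, dif_neg (not_not.2 rfl), fun l hl => ?_⟩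
  · dsimp only
    split_ifs with h
    · exact hr0 _
    · exact le_rfl
  · have h1 : ∀ i, (if h : i ≠ j then r ⟨i, h⟩ else 0) * cC τ al T i l = (if h : i ≠ j then r ⟨i, h⟩ * al i (τ (al l)) else 0) / T l (τ (al l)) := by
      intro i
      split_ifs with h
      · rw [cC, mul_div_assoc]
      · rw [zero_mul, zero_div]
    simp_rw [h1]
    rw [← Finset.sum_div]
    refine div_pos ?_ (hT0 l)
    have h2 : ∑ i, (if h : i ≠ j then r ⟨i, h⟩ * al i (τ (al l)) else 0) = ∑ k : {k : ι // k ≠ j}, r k * al (k : ι) (τ (al l)) := by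
      rw [← Fintype.sum_subtype_add_sum_subtype (fun i => i ≠ j) fun i => if h : i ≠ j then r ⟨i, h⟩ * al i (τ (al l)) else 0]
      have h3 : ∑ i : {x : ι // ¬ x ≠ j}, (if h : (i : ι) ≠ j then r ⟨i, h⟩ * al i (τ (al l)) else 0) = 0 :=
        Finset.sum_eq_zero fun i _ => dif_neg i.2
      rw [h3, add_zero]
      exact Finset.sum_congr rfl fun i _ => dif_pos i.2
    rw [h2]
    have h3 : ∑ k : {k : ι // k ≠ j}, r k * al (k : ι) (τ (al l)) = al l (∑ k, r k • τ (al (k : ι))) := by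
      rw [map_sum]
      exact Finset.sum_congr rfl fun k _ => by rw [map_smul, smul_eq_mul, s.symm (k : ι) l]
    rw [h3, hr l hl]
    exact zero_lt_one

end Pool.Agent.Helper77.FQ
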