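import Pool.Agent.Helper2.BC.Core

/-!
# Project FQ (MP_0f6f3f_an), group data: the parabolic subgroups

`par_gen`: `H ∈ L` with `θ H = -H`, `Z` commuting with the centraliser of `H` only if `Z ∈ ℝ H`. For every compact subset `B` of `G` the elements `exp(t H) g exp(-t H)`, `0 ≤ t`, `g ∈ B` with `g (es H (Iic 0)) ⊆ es H (Iic 0)`, are in a compact set:
`g` preserves the filtration `es H (Iic m)` (`filt_stab`), so the entries of the matrix in a basis of eigenvectors are multiplied by numbers in `[0, 1]`. `perp_stab`: `g (es H (Iio 0)) ⊆ es H (Iio 0)` is sufficient.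
-/

set_option autoImplicit false

open Matrix Set Filter Topology

namespace Pool.Agent.Helper77.FQ

open Pool.Agent.Helper96.SA Pool.Agent.Helper96.TO Pool.Agent.Helper35.TZ Pool.Agent.Helper2.BC

variable {L : Type} [LieRing L] [LieAlgebra ℝ L] {N : ℕ} {θ : L ≃ₗ⁅ℝ⁆ L} {b e : Module.Basis (Fin N) ℝ L} {H : L} {d : Fin N → ℝ}
  {p : GL (Fin N) ℝ}

theorem inv_stab (V : Submodule ℝ L) (hV : ∀ x ∈ V, ac b p x ∈ V) : ∀ x ∈ V, ac b p⁻¹ x ∈ V := by
  have : Module.Finite ℝ L := Module.Finite.of_basis b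
  intro x hx
  have hinj : Function.Injective ((ac b p).restrict hV) := by
    intro u v huv
    have h1 : ac b p (u : L) = ac b p (v : L) := congrArg Subtype.val huv
    have h2 := congrArg (ac b p⁻¹) h1
    rw [ac_inv, ac_inv] at h2
    exact Subtype.ext h2
  obtain ⟨y, hy⟩ := (LinearMap.injective_iff_surjective.1 hinj) ⟨x, hx⟩
  have h1 : ac b p (y : L) = x := congrArg Subtype.val hy
  rw [← h1, ac_inv]
  exact y.2

/-- The stabiliser of the nilpotent part stabilises the parabolic. -/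
theorem perp_stab (h : CartanBasis θ b) (hE : EB H e d) (hH : θ H = -H) (hp : p ∈ autG b)
    (hq : ∀ x ∈ es H (Iio 0), ac b p x ∈ es H (Iio 0)) : ∀ x ∈ es H (Iic 0), ac b p x ∈ es H (Iic 0) := by
  intro x hx
  obtain ⟨x₁, hx₁, x₂, hx₂, hxe⟩ := es_decomp hE (Iic 0) (ac b p x)
  have h1 : θ x₂ ∈ es H (Iio 0) := by
    refine es_mono ?_ (theta_es hH hx₂)
    intro t ht
    have ht' : ¬ (-t ≤ 0) := ht
    rw [mem_Iio]
    linarith
  have h2 : killingForm ℝ L (ac b p x) (θ x₂) = 0 := by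
    have h3 := inv_stab (b := b) _ hq _ h1
    have h4 := kill_ac hp x (ac b p⁻¹ (θ x₂))
    rw [ac_inv'] at h4
    rw [h4]
    refine es_kill hE hx h3 ?_
    intro s hs t ht
    rw [mem_Iic] at hs
    rw [mem_Iio] at ht
    linarith
  have h3 : killingForm ℝ L x₁ (θ x₂) = 0 := by
    refine es_kill hE hx₁ h1 ?_
    intro s hs t ht
    rw [mem_Iic] at hs
    rw [mem_Iio] at ht
    linarith
  rw [hxe, map_add, LinearMap.add_apply, h3, zero_add] at h2
  have h4 := eq_zero_of_form h h2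
  rw [hxe, h4, add_zero]
  exact hx₁

/-- Automorphisms fixing `H` preserve the eigenspaces. -/
theorem fix_es {z : GL (Fin N) ℝ} (hz : z ∈ autG b) (hzH : ac b z H = H) {S : Set ℝ} {x : L} (hx : x ∈ es H S) : ac b z x ∈ es H S := by
  unfold es at hx
  induction hx using Submodule.iSup_induction' with
  | mem l y hy =>
    by_cases hl : l ∈ S
    · rw [iSup_pos hl, Module.End.mem_eigenspace_iff] at hy
      have hy' : ⁅H, y⁆ = l • y := hy
      unfold es
      refine Submodule.mem_iSup_of_mem l (Submodule.mem_iSup_of_mem hl ?_)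
      rw [Module.End.mem_eigenspace_iff]
      change ⁅H, ac b z y⁆ = l • ac b z y
      have h1 := ac_lie hz H y
      rw [hzH, hy', map_smul] at h1
      exact h1.symm
    · rw [iSup_neg hl] at hy
      rw [(Submodule.mem_bot ℝ).1 hy, map_zero]
      exact Submodule.zero_mem _
  | zero =>
    rw [map_zero]
    exact Submodule.zero_mem _
  | add y z _ _ hy hz =>
    rw [map_add]
    exact Submodule.add_mem _ hy hz

/-- The filtration is preserved. -/
theorem filt_stab (h : CartanBasis θ b) (hH : θ H = -H) (H0 : H ≠ 0)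
    (hc : ∀ Z : L, θ Z = -Z → (∀ y : L, ⁅H, y⁆ = 0 → ⁅Z, y⁆ = 0) → ∃ c : ℝ, Z = c • H) (hp : p ∈ autG b)
    (hq : ∀ x ∈ es H (Iic 0), ac b p x ∈ es H (Iic 0)) (m : ℝ) : ∀ x ∈ es H (Iic m), ac b p x ∈ es H (Iic m) := by
  obtain ⟨e, d, he, hE⟩ := exists_eb h hH
  have hs := stab h he hE hH H0 hc hp hq
  obtain ⟨u, hu, hue⟩ := rem_neg (b := b) hE hs
  rw [add_sub_cancel, ← ac_mul] at hue
  have hz : u * p ∈ autG b := (autG b).mul_mem (autC_le b (UU_le b e _ hu)) hp
  intro x hx
  have h1 : ac b p x = ac b u⁻¹ (ac b (u * p) x) := by rw [ac_mul, ac_inv]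
  rw [h1]
  refine UU_es hE (T := Iio 0) (fun i hi => hi) (fun t ht s hs => ?_) ((UU b e _).inv_mem hu) (fix_es hz hue hx)
  rw [mem_Iio] at ht
  rw [mem_Iic] at hs ⊢
  linarith

/-- The exponential of `ad H` on a basis of eigenvectors. -/
theorem ac_exH (hE : EB H e d) (τ : ℝ) (i : Fin N) : ac b (ex (τ • TT_to b H)) (e i) = Real.exp (τ * d i) • e i := by
  let P : (Mat N)ˣ := ⟨b.toMatrix e, e.toMatrix b, Module.Basis.toMatrix_mul_toMatrix_flip b e,
    Module.Basis.toMatrix_mul_toMatrix_flip e b⟩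
  have hP : (P : Mat N) = b.toMatrix e := rfl
  have hP' : ((P⁻¹ : (Mat N)ˣ) : Mat N) = e.toMatrix b := rfl
  have key : ∀ f : L →ₗ[ℝ] L, LinearMap.toMatrix b b f =
      (P : Mat N) * LinearMap.toMatrix e e f * ((P⁻¹ : (Mat N)ˣ) : Mat N) := by
    intro f
    rw [hP, hP']
    exact (basis_toMatrix_mul_linearMap_toMatrix_mul_basis_toMatrix b e b e f).symm
  have hdg : LinearMap.toMatrix e e (LieAlgebra.ad ℝ L H) = diagonal d := by
    ext i j
    rw [LinearMap.toMatrix_apply, LieAlgebra.ad_apply, hE j, map_smul, Module.Basis.repr_self,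
      Finsupp.smul_apply, Finsupp.single_apply, Matrix.diagonal_apply]
    by_cases h : i = j
    · subst h
      simp
    · rw [if_neg h, if_neg (fun h' => h h'.symm), smul_zero]
  have h1 : τ • TT_to b H = (P : Mat N) * diagonal (fun i => τ * d i) * ((P⁻¹ : (Mat N)ˣ) : Mat N) := by
    rw [TT_apply_to, key, hdg]
    have h2 : (diagonal fun i => τ * d i) = τ • (diagonal d : Mat N) := by
      ext i j
      simp [Matrix.diagonal_apply]
    rw [h2, mul_smul_comm, smul_mul_assoc]
  have h3 : NormedSpace.exp (diagonal (fun i => τ * d i) : Mat N) =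
      diagonal fun i => Real.exp (τ * d i) := by
    rw [Matrix.exp_diagonal]
    congr 1
    funext i
    rw [Pi.coe_exp, Real.exp_eq_exp_ℝ]
  have h4 : ac b (ex (τ • TT_to b H)) = toLin e e (diagonal fun i => Real.exp (τ * d i)) := by
    unfold ac
    rw [ex_coe, h1, Matrix.exp_units_conj P, h3]
    apply (LinearMap.toMatrix b b).injective
    rw [LinearMap.toMatrix_toLin, key, LinearMap.toMatrix_toLin]
  rw [h4, Matrix.toLin_self, Finset.sum_eq_single i]
  · rw [Matrix.diagonal_apply_eq]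
  · intro j _ hj
    rw [Matrix.diagonal_apply_ne _ hj, zero_smul]
  · intro h
    exact absurd (Finset.mem_univ i) h

/-- The entries of the conjugates. -/
theorem conj_repr (hE : EB H e d) (g : GL (Fin N) ℝ) (t : ℝ) (i k : Fin N) :
    e.repr (ac b (ex (t • TT_to b H) * g * ex ((-t) • TT_to b H)) (e k)) i = Real.exp (t * (d i - d k)) * e.repr (ac b g (e k)) i := by
  rw [ac_mul, ac_mul, ac_exH hE, map_smul]
  have h1 : ac b (ex (t • TT_to b H)) (ac b g (e k)) = ∑ j, (e.repr (ac b g (e k)) j * Real.exp (t * d j)) • e j := by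
    conv_lhs => rw [← e.sum_repr (ac b g (e k))]
    rw [map_sum]
    refine Finset.sum_congr rfl fun j _ => ?_
    rw [map_smul, ac_exH hE, smul_smul]
  rw [map_smul, h1, map_smul, Finsupp.smul_apply, map_sum, Finsupp.finsetSum_apply, Finset.sum_eq_single i]
  · rw [map_smul, Module.Basis.repr_self, Finsupp.smul_apply, Finsupp.single_eq_same, smul_eq_mul, smul_eq_mul, mul_one, mul_sub, Real.exp_sub,
      neg_mul, Real.exp_neg]
    ring
  · intro j _ hj
    rw [map_smul, Module.Basis.repr_self, Finsupp.smul_apply, Finsupp.single_eq_of_ne (Ne.symm hj), smul_zero]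
  · intro hi
    exact absurd (Finset.mem_univ i) hi

/-- The set of the elements with bounded entries is compact. -/
theorem isCompact_bdd (e : Module.Basis (Fin N) ℝ L) {G : Subgroup (GL (Fin N) ℝ)} (hG : IsClosed (G : Set (GL (Fin N) ℝ))) (R : ℝ) :
    IsCompact {g : G | (∀ i k, |e.repr (ac b (g : GL (Fin N) ℝ) (e k)) i| ≤ R) ∧
      ∀ i k, |e.repr (ac b ((g : GL (Fin N) ℝ)⁻¹) (e k)) i| ≤ R} := by
  let Ψ : Mat N ≃ₗ[ℝ] Mat N := (toLin b b).trans (LinearMap.toMatrix e e)
  have hΨ : ∀ (M : Mat N) (i k : Fin N), Ψ M i k = e.repr (toLin b b M (e k)) i := by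
    intro M i k
    change LinearMap.toMatrix e e (toLin b b M) i k = _
    rw [LinearMap.toMatrix_apply]
  have hbox : IsCompact {M : Mat N | ∀ i k, |M i k| ≤ R} := by
    have h1 : IsCompact (Set.pi Set.univ fun _ : Fin N => Set.pi Set.univ fun _ : Fin N => Set.Icc (-R) R) :=
      isCompact_univ_pi fun _ => isCompact_univ_pi fun _ => isCompact_Icc
    have h2 : {M : Mat N | ∀ i k, |M i k| ≤ R} = Set.pi Set.univ fun _ : Fin N => Set.pi Set.univ fun _ : Fin N => Set.Icc (-R) R := by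
      ext M
      constructor
      · intro hM i _ k _
        exact abs_le.1 (hM i k)
      · intro hM i k
        exact abs_le.2 (hM i trivial k trivial)
    rw [h2]
    exact h1
  have hcont : Continuous (Ψ.symm : Mat N → Mat N) := Ψ.symm.toLinearMap.continuous_of_finiteDimensional
  have hC : IsCompact {M : Mat N | ∀ i k, |Ψ M i k| ≤ R} := by
    have h2 : {M : Mat N | ∀ i k, |Ψ M i k| ≤ R} = Ψ.symm '' {M : Mat N | ∀ i k, |M i k| ≤ R} := by
      ext M
      constructor
      · intro hM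
        exact ⟨Ψ M, hM, Ψ.symm_apply_apply M⟩
      · rintro ⟨M', hM', rfl⟩
        intro i k
        rw [Ψ.apply_symm_apply]
        exact hM' i k
    rw [h2]
    exact hbox.image hcont
  have hCt : IsCompact {M : Mat N | ∀ i k, |Ψ Mᵀ i k| ≤ R} := by
    have h2 : {M : Mat N | ∀ i k, |Ψ Mᵀ i k| ≤ R} = (fun M : Mat N => Mᵀ) '' {M : Mat N | ∀ i k, |Ψ M i k| ≤ R} := by
      ext M
      constructor
      · intro hM
        exact ⟨Mᵀ, hM, Matrix.transpose_transpose M⟩
      · rintro ⟨M', hM', rfl⟩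
        intro i k
        change |Ψ (M'ᵀ)ᵀ i k| ≤ R
        rw [Matrix.transpose_transpose]
        exact hM' i k
    rw [h2]
    exact hC.image (continuous_id.matrix_transpose)
  have hemb : IsClosedEmbedding (fun g : G => dbl (g : GL (Fin N) ℝ)) := isClosedEmbedding_dbl.comp hG.isClosedEmbedding_subtypeVal
  have h3 := hemb.isCompact_preimage (hC.prod hCt)
  convert h3 using 1
  ext g
  change (_ ∧ _) ↔ ((∀ i k, |Ψ _ i k| ≤ R) ∧ (∀ i k, |Ψ _ i k| ≤ R))
  simp only [hΨ]
  rfl

/-- **Conjugates of compact sets.** -/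
theorem par_gen (h : CartanBasis θ b) {G : Subgroup (GL (Fin N) ℝ)} (hG : IsAdj b G) (hH : θ H = -H) (H0 : H ≠ 0)
    (hc : ∀ Z : L, θ Z = -Z → (∀ y : L, ⁅H, y⁆ = 0 → ⁅Z, y⁆ = 0) → ∃ c : ℝ, Z = c • H) {B : Set G} (hB : IsCompact B) :
    ∃ B' : Set G, IsCompact B' ∧ ∀ g ∈ B, (∀ x ∈ es H (Iic 0), ac b (g : GL (Fin N) ℝ) x ∈ es H (Iic 0)) → ∀ t : ℝ, 0 ≤ t → ∀ g' : G,
      (g' : GL (Fin N) ℝ) = ex (t • TT_to b H) * (g : GL (Fin N) ℝ) * ex ((-t) • TT_to b H) → g' ∈ B' := by
  obtain ⟨e, d, he, hE⟩ := exists_eb h hH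
  -- bounds
  have hbd : ∀ f : G → GL (Fin N) ℝ, Continuous f → ∃ R : ℝ, ∀ g ∈ B, ∀ i k, |e.repr (ac b (f g) (e k)) i| ≤ R := by
    intro f hf
    have h1 : ∀ i k : Fin N, ∃ R : ℝ, ∀ g ∈ B, |e.repr (ac b (f g) (e k)) i| ≤ R := by
      intro i k
      have h2 : Continuous fun g : G => e.repr (ac b (f g) (e k)) i := by
        let ψ : Mat N →ₗ[ℝ] ℝ :=
          { toFun := fun M => e.repr (toLin b b M (e k)) i
            map_add' := fun M M' => by rw [map_add, LinearMap.add_apply, map_add, Finsupp.add_apply]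
            map_smul' := fun c M => by rw [map_smul, LinearMap.smul_apply, map_smul, Finsupp.smul_apply]; rfl }
        have h3 : Continuous ψ := ψ.continuous_of_finiteDimensional
        exact h3.comp (Units.continuous_val.comp hf)
      obtain ⟨R, hR⟩ := hB.exists_bound_of_continuousOn h2.continuousOn
      exact ⟨R, fun g hg => by simpa [Real.norm_eq_abs] using hR g hg⟩
    choose R hR using h1
    refine ⟨∑ i, ∑ k, |R i k|, fun g hg i k => (hR i k g hg).trans ((le_abs_self _).trans ?_)⟩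
    refine le_trans ?_ (Finset.single_le_sum (f := fun i => ∑ k, |R i k|) (fun i _ => Finset.sum_nonneg fun k _ => abs_nonneg _) (Finset.mem_univ i))
    exact Finset.single_le_sum (f := fun k => |R i k|) (fun k _ => abs_nonneg _) (Finset.mem_univ k)
  obtain ⟨R1, hR1⟩ := hbd (fun g => (g : GL (Fin N) ℝ)) continuous_subtype_val
  obtain ⟨R2, hR2⟩ := hbd (fun g => (g : GL (Fin N) ℝ)⁻¹) (continuous_inv.comp continuous_subtype_val)
  refine ⟨_, isCompact_bdd (b := b) e hG.closed (max R1 R2), fun g hg hq t ht g' hg' => ?_⟩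
  have key : ∀ (p : GL (Fin N) ℝ), p ∈ autG b → (∀ x ∈ es H (Iic 0), ac b p x ∈ es H (Iic 0)) → ∀ i k,
      |e.repr (ac b (ex (t • TT_to b H) * p * ex ((-t) • TT_to b H)) (e k)) i| ≤ |e.repr (ac b p (e k)) i| := by
    intro p hp hq i k
    rw [conj_repr hE, abs_mul, Real.abs_exp]
    by_cases h1 : d i ≤ d k
    · refine mul_le_of_le_one_left (abs_nonneg _) (Real.exp_le_one_iff.2 ?_)
      exact mul_nonpos_of_nonneg_of_nonpos ht (by linarith)
    · have h2 := filt_stab h hH H0 hc hp hq (d k) (e k) (hE.mem k (by rw [mem_Iic]))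
      rw [(mem_es hE).1 h2 i (by rw [mem_Iic]; exact h1), abs_zero, mul_zero]
  have hgG : (g : GL (Fin N) ℝ) ∈ autG b := hG.aut g.2
  constructor
  · intro i k
    rw [hg']
    exact (key _ hgG hq i k).trans ((hR1 g hg i k).trans (le_max_left _ _))
  · intro i k
    have h1 : ((g' : GL (Fin N) ℝ))⁻¹ = ex (t • TT_to b H) * (g : GL (Fin N) ℝ)⁻¹ * ex ((-t) • TT_to b H) := by
      rw [hg', _root_.mul_inv_rev, _root_.mul_inv_rev, ← ex_neg, ← ex_neg, neg_smul, neg_neg, mul_assoc]
    rw [h1]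
    exact (key _ ((autG b).inv_mem hgG) (inv_stab (b := b) _ hq) i k).trans ((hR2 g hg i k).trans (le_max_right _ _))

end Pool.Agent.Helper77.FQ
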