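import Pool.Agent.Helper90.OB.G2Weyl

/-!
# Project FQ (MP_0f6f3f_an), root data: commutators in the Levi subgroup

`S` is a subgroup of `G` which contains all elements of `G` commuting with `TT_to b W`, `W ∈ A`. `ex_mem_commutator`: for `H` in the span of the `τ φ`, `φ` a root with `φ W = 0`, `exp(TT_to b H)` is in the
commutator subgroup of `S`. `exr_mem_commutator`: the same for `exp(TT_to b x)`, `x` in the root space of such a `φ`.
-/

set_option autoImplicit false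

open Matrix
open scoped commutatorElement

namespace Pool.Agent.Helper77.FQ

open Pool.Agent.Helper96.SA Pool.Agent.Helper96.TO Pool.Agent.Helper96.FR Pool.Agent.Helper90.OB Pool.Agent.Helper69.SLN

variable {L : Type} [LieRing L] [LieAlgebra ℝ L] {N : ℕ} {θ : L ≃ₗ⁅ℝ⁆ L} {b : Module.Basis (Fin N) ℝ L}
  {G : Subgroup (GL (Fin N) ℝ)} {A : Submodule ℝ L}

theorem ex_mem (hG : IsAdj b G) (x : L) : ex (TT_to b x) ∈ G := hG.exp_ad x

/-- The elements of `A` commute. -/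
theorem TT_commA (hA : MaxFlat θ A) (x y : A) : TT_to b (x : L) * TT_to b (y : L) = TT_to b (y : L) * TT_to b (x : L) := by
  have h1 : ⁅(x : L), (y : L)⁆ = 0 := hA.abel _ x.2 _ y.2
  rw [TT_apply_to, TT_apply_to, ← LinearMap.toMatrix_mul, ← LinearMap.toMatrix_mul]
  congr 1
  have h2 : (LieAlgebra.ad ℝ L (x : L)) * (LieAlgebra.ad ℝ L (y : L)) - (LieAlgebra.ad ℝ L (y : L)) * (LieAlgebra.ad ℝ L (x : L)) = 0 := by
    refine LinearMap.ext fun z => ?_
    rw [LinearMap.sub_apply, Module.End.mul_apply, Module.End.mul_apply, LinearMap.zero_apply, LieAlgebra.ad_apply, LieAlgebra.ad_apply,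
      LieAlgebra.ad_apply, LieAlgebra.ad_apply, ← lie_lie, h1, zero_lie]
  exact sub_eq_zero.1 h2

/-- `S` contains the centraliser of `W`. -/
def CS (b : Module.Basis (Fin N) ℝ L) (G : Subgroup (GL (Fin N) ℝ)) (W : A) (S : Subgroup G) : Prop :=
  ∀ g : G, ((g : GL (Fin N) ℝ) : Mat N) * TT_to b (W : L) = TT_to b (W : L) * ((g : GL (Fin N) ℝ) : Mat N) → g ∈ S

variable {S : Subgroup G} {W : A}

theorem CS.mem_A (hS : CS b G W S) (hG : IsAdj b G) (hA : MaxFlat θ A) (H : A) : (⟨ex (TT_to b (H : L)), ex_mem hG _⟩ : G) ∈ S :=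
  hS _ (by
    have h1 := ex_commute (g := ex (TT_to b (H : L))) (X := TT_to b (W : L))
    change NormedSpace.exp _ * _ = _ * NormedSpace.exp _
    exact ((show Commute (TT_to b (W : L)) (TT_to b (H : L)) from TT_commA hA W H).exp_right).symm.eq)

theorem coe_comm_mul {g x : GL (Fin N) ℝ} {X Y : Mat N} (h : (g : Mat N) * X * ((g⁻¹ : GL (Fin N) ℝ) : Mat N) = Y) (hx : x = ex X) : g * x * g⁻¹ = ex Y := by
  rw [hx, ← h, ex_conj]

theorem ex_eig {X Z : Mat N} {c : ℝ} (h : X * Z - Z * X = c • Z) :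
    ((ex X : GL (Fin N) ℝ) : Mat N) * Z * (((ex X)⁻¹ : GL (Fin N) ℝ) : Mat N) = Real.exp c • Z := by
  rw [← ex_neg, ex_coe, ex_coe]
  open scoped Matrix.Norms.Operator in
  have h2 := Pool.Agent.Helper9.Mau.cc_eig (A := Mat N) h 1
  rw [Pool.Agent.Helper9.Mau.cc, one_smul, neg_one_smul, mul_one] at h2
  exact h2

/-- Elements of `A`. -/
theorem cor_mem_commutator [LieAlgebra.IsSimple ℝ L] (h : CartanBasis θ b) (hG : IsAdj b G) (hA : MaxFlat θ A) {τ : Module.Dual ℝ A ≃ₗ[ℝ] A}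
    (hτ : ∀ (φ : Module.Dual ℝ A) (a : A), killingForm ℝ L (τ φ : L) (a : L) = φ a) (hS : CS b G W S) {φ : Module.Dual ℝ A} (hφ : φ ∈ rootsL A)
    (h0 : φ W = 0) (t : ℝ) : ∃ q ∈ commutator S, ((q : G) : GL (Fin N) ℝ) = ex (TT_to b ((t • cor τ φ : A) : L)) := by
  obtain ⟨w, hw⟩ := exists_refl h hG hA hτ hφ
  have hwS : w ∈ S := by
    refine hS w ?_
    have h1 := hw W
    rw [h0, zero_smul, sub_zero] at h1
    have h2 : ((w : GL (Fin N) ℝ) : Mat N) * TT_to b (W : L) * (((w : GL (Fin N) ℝ)⁻¹ : GL (Fin N) ℝ) : Mat N) * ((w : GL (Fin N) ℝ) : Mat N) =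
        TT_to b (W : L) * ((w : GL (Fin N) ℝ) : Mat N) := by rw [h1]
    rwa [Matrix.mul_assoc, ← Units.val_mul, inv_mul_cancel, Units.val_one, Matrix.mul_one] at h2
  have hc2 : φ (cor τ φ) = 2 := by
    have pa := tau_pos hτ h hA hφ.1
    rw [cor, map_smul, smul_eq_mul]
    exact div_mul_cancel₀ _ pa.ne'
  obtain ⟨H, hH⟩ : ∃ H : A, H = (-(t / 2)) • cor τ φ := ⟨_, rfl⟩
  let x : S := ⟨⟨ex (TT_to b (H : L)), ex_mem hG _⟩, hS.mem_A hG hA H⟩
  refine ⟨⁅(⟨w, hwS⟩ : S), x⁆, Subgroup.commutator_mem_commutator (Subgroup.mem_top _) (Subgroup.mem_top _), ?_⟩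
  have h1 := hw H
  have h2 : H - φ H • cor τ φ = (t / 2) • cor τ φ := by
    rw [hH, map_smul, hc2]
    module
  rw [h2] at h1
  change (w : GL (Fin N) ℝ) * ex (TT_to b (H : L)) * (w : GL (Fin N) ℝ)⁻¹ * (ex (TT_to b (H : L)))⁻¹ = _
  rw [coe_comm_mul h1 rfl, ← ex_neg, ← map_neg, ← ex_add]
  · rw [← map_add]
    congr 2
    rw [hH]
    push_cast
    module
  · have := TT_commA (b := b) hA ((t / 2) • cor τ φ) (-H)
    push_cast at this ⊢
    exact this

theorem ex_mem_commutator [LieAlgebra.IsSimple ℝ L] (h : CartanBasis θ b) (hG : IsAdj b G) (hA : MaxFlat θ A) {τ : Module.Dual ℝ A ≃ₗ[ℝ] A}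
    (hτ : ∀ (φ : Module.Dual ℝ A) (a : A), killingForm ℝ L (τ φ : L) (a : L) = φ a) (hS : CS b G W S) {H : A}
    (hH : H ∈ Submodule.span ℝ {c : A | ∃ φ ∈ rootsL A, φ W = 0 ∧ c = τ φ}) :
    ∃ q ∈ commutator S, ((q : G) : GL (Fin N) ℝ) = ex (TT_to b (H : L)) := by
  have key : ∀ φ ∈ rootsL A, φ W = 0 → ∀ t : ℝ, ∃ q ∈ commutator S, ((q : G) : GL (Fin N) ℝ) = ex (TT_to b ((t • τ φ : A) : L)) := by
    intro φ hφ h0 t
    have pa := tau_pos hτ h hA hφ.1
    obtain ⟨q, hq, hq2⟩ := cor_mem_commutator h hG hA hτ hS hφ h0 (t * (φ (τ φ) / 2))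
    refine ⟨q, hq, hq2.trans ?_⟩
    have e : (t * (φ (τ φ) / 2)) • cor τ φ = t • τ φ := by
      rw [cor, smul_smul]
      congr 1
      field_simp
    rw [e]
  suffices hs : ∀ t : ℝ, ∃ q ∈ commutator S, ((q : G) : GL (Fin N) ℝ) = ex (TT_to b ((t • H : A) : L)) by
    have := hs 1
    rwa [one_smul] at this
  induction hH using Submodule.span_induction with
  | mem x hx =>
    obtain ⟨φ, hφ, h0, rfl⟩ := hx
    exact key φ hφ h0
  | zero =>
    intro t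
    refine ⟨1, Subgroup.one_mem _, ?_⟩
    rw [smul_zero, ZeroMemClass.coe_zero, map_zero, ex_zero]
    rfl
  | add x y hx hy ihx ihy =>
    intro t
    obtain ⟨q, hq, hq2⟩ := ihx t
    obtain ⟨r, hr, hr2⟩ := ihy t
    refine ⟨q * r, Subgroup.mul_mem _ hq hr, ?_⟩
    have e : (((q * r : S) : G) : GL (Fin N) ℝ) = ((q : G) : GL (Fin N) ℝ) * ((r : G) : GL (Fin N) ℝ) := rfl
    rw [e, hq2, hr2, ← ex_add (TT_commA hA (t • x) (t • y)), ← map_add, ← Submodule.coe_add, smul_add]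
  | smul c x hx ih =>
    intro t
    rw [smul_smul]
    exact ih (t * c)

/-- Elements of the root spaces. -/
theorem exr_mem_commutator (h : CartanBasis θ b) (hG : IsAdj b G) (hA : MaxFlat θ A) {τ : Module.Dual ℝ A ≃ₗ[ℝ] A}
    (hτ : ∀ (φ : Module.Dual ℝ A) (a : A), killingForm ℝ L (τ φ : L) (a : L) = φ a) (hS : CS b G W S) {φ : Module.Dual ℝ A} (hφ : φ ≠ 0)
    (h0 : φ W = 0) {x : L} (hx : ∀ a : A, ⁅(a : L), x⁆ = φ a • x) : ∃ q ∈ commutator S, ((q : G) : GL (Fin N) ℝ) = ex (TT_to b x) := by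
  have pa := tau_pos hτ h hA hφ
  obtain ⟨H, hH⟩ : ∃ H : A, φ H = Real.log 2 := ⟨(Real.log 2 / φ (τ φ)) • τ φ, by
    rw [map_smul, smul_eq_mul]
    exact div_mul_cancel₀ _ pa.ne'⟩
  have hbr : ∀ a : A, TT_to b (a : L) * TT_to b x - TT_to b x * TT_to b (a : L) = φ a • TT_to b x := by
    intro a
    rw [← TT_lie_to, hx a, map_smul]
  have hxS : (⟨ex (TT_to b x), ex_mem hG _⟩ : G) ∈ S := hS _ (by
    change NormedSpace.exp _ * _ = _ * NormedSpace.exp _
    have h1 := hbr W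
    rw [h0, zero_smul, sub_eq_zero] at h1
    exact ((show Commute (TT_to b (W : L)) (TT_to b x) from h1).exp_right).symm.eq)
  let a : S := ⟨⟨ex (TT_to b (H : L)), ex_mem hG _⟩, hS.mem_A hG hA H⟩
  refine ⟨⁅a, (⟨_, hxS⟩ : S)⁆, Subgroup.commutator_mem_commutator (Subgroup.mem_top _) (Subgroup.mem_top _), ?_⟩
  have h1 : ((ex (TT_to b (H : L)) : GL (Fin N) ℝ) : Mat N) * TT_to b x * (((ex (TT_to b (H : L)))⁻¹ : GL (Fin N) ℝ) : Mat N) = (2 : ℝ) • TT_to b x := by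
    have h2 := ex_eig (hbr H)
    rwa [hH, Real.exp_log two_pos] at h2
  change ex (TT_to b (H : L)) * ex (TT_to b x) * (ex (TT_to b (H : L)))⁻¹ * (ex (TT_to b x))⁻¹ = _
  rw [coe_comm_mul h1 rfl, ← ex_neg, ← ex_add]
  · congr 1
    module
  · rw [Matrix.smul_mul, Matrix.mul_neg, Matrix.neg_mul, Matrix.mul_smul, smul_neg]

end Pool.Agent.Helper77.FQ
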