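import Pool.Agent.Helper77.FQ.Wt
import Pool.Agent.Helper85.AE.Smp

/-!
# Project FQ (MP_0f6f3f_an), layer END: the sum of the positive restricted roots

`rho_pair`: `2 rho (tau al_i) = (m_i + 2 m_{2i}) al_i (tau al_i)`. `cartan_of_rho`: in rank two the coefficients of `2 rho` and the multiplicities of the
simple roots determine the Cartan integers.
-/

set_option autoImplicit false

namespace Pool.Agent.Helper77.FQ

open Pool.Agent.Helper96.SA Pool.Agent.Helper96.TO Pool.Agent.Helper69.SLN Pool.Agent.Helper77.LA Pool.Agent.Helper77.AE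
  Pool.Agent.Helper77.TZ2 Pool.Agent.Helper77.ST

variable {L : Type} [LieRing L] [LieAlgebra ℝ L] {N : ℕ} {θ : L ≃ₗ⁅ℝ⁆ L} {b : Module.Basis (Fin N) ℝ L} {A : Submodule ℝ L}

/-- The trace argument: `[x, y]` has trace zero on a sum of weight spaces stable under `x` and `y`. -/
theorem trace_zero (h : CartanBasis θ b) (hA : MaxFlat θ A) {χ : Module.Dual ℝ A} {x y : L} (hx : x ∈ rsp A χ) (hy : y ∈ rsp A (-χ))
    {a : A} (hxy : ⁅x, y⁆ = (a : L)) {S : Finset (Module.Dual ℝ A)} (h1 : ∀ φ ∈ S, φ + χ ∈ S ∨ rsp A (φ + χ) = ⊥)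
    (h2 : ∀ φ ∈ S, φ - χ ∈ S ∨ rsp A (φ - χ) = ⊥) : ∑ φ ∈ S, (Module.finrank ℝ (rsp A φ) : ℝ) * φ a = 0 := by
  have hF : Module.Finite ℝ L := Module.Finite.of_basis b
  obtain ⟨P, hP1, hP2, hP3⟩ := exists_wproj h hA
  obtain ⟨Q, hQ⟩ : ∃ Q : L →ₗ[ℝ] L, Q = ∑ φ ∈ S, P φ := ⟨_, rfl⟩
  have hQm : ∀ φ ∈ S, ∀ z ∈ rsp A φ, Q z = z := by
    intro φ hφ z hz
    rw [hQ, LinearMap.sum_apply, Finset.sum_eq_single φ (fun ψ _ hne => hP3 ψ φ hne z hz) (fun h4 => absurd hφ h4), hP2 φ z hz]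
  obtain ⟨X, hX⟩ : ∃ X : L →ₗ[ℝ] L, X = LieAlgebra.ad ℝ L x := ⟨_, rfl⟩
  obtain ⟨Y, hY⟩ : ∃ Y : L →ₗ[ℝ] L, Y = LieAlgebra.ad ℝ L y := ⟨_, rfl⟩
  have hX' : ∀ z, X z = ⁅x, z⁆ := fun z => by rw [hX]; rfl
  have hY' : ∀ z, Y z = ⁅y, z⁆ := fun z => by rw [hY]; rfl
  have hc : ∀ (w : L) (ω : Module.Dual ℝ A) (W : L →ₗ[ℝ] L), w ∈ rsp A ω → (∀ z, W z = ⁅w, z⁆) → (∀ φ ∈ S, φ + ω ∈ S ∨ rsp A (φ + ω) = ⊥) →
      Q ∘ₗ W ∘ₗ Q = W ∘ₗ Q := by
    intro w ω W hw hW h3
    refine LinearMap.ext fun z => ?_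
    rw [LinearMap.comp_apply, LinearMap.comp_apply]
    have h4 : Q z = ∑ φ ∈ S, P φ z := by rw [hQ, LinearMap.sum_apply]
    rw [h4, map_sum, map_sum]
    refine Finset.sum_congr rfl fun φ hφ => ?_
    have h5 : W (P φ z) ∈ rsp A (φ + ω) := by
      rw [hW, add_comm]
      exact rsp_lie hw (hP1 φ z)
    rcases h3 φ hφ with h6 | h6
    · exact hQm _ h6 _ h5
    · rw [h6, Submodule.mem_bot] at h5
      rw [h5, map_zero]
  have hcX := hc x χ X hx hX' h1
  have hcY := hc y (-χ) Y hy hY' fun φ hφ => by rw [← sub_eq_add_neg]; exact h2 φ hφ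
  have ht : LinearMap.trace ℝ L (X ∘ₗ Y ∘ₗ Q) = LinearMap.trace ℝ L (Y ∘ₗ X ∘ₗ Q) := by
    have e1 : X ∘ₗ Y ∘ₗ Q = (X ∘ₗ Q) ∘ₗ (Y ∘ₗ Q) := by
      conv_lhs => rw [← hcY]
      rfl
    have e2 : Y ∘ₗ X ∘ₗ Q = (Y ∘ₗ Q) ∘ₗ (X ∘ₗ Q) := by
      conv_lhs => rw [← hcX]
      rfl
    rw [e1, e2]
    exact LinearMap.trace_mul_comm ℝ _ _
  have h0 : LinearMap.trace ℝ L (∑ φ ∈ S, φ a • P φ) = 0 := by
    have e1 : ∑ φ ∈ S, φ a • P φ = X ∘ₗ Y ∘ₗ Q - Y ∘ₗ X ∘ₗ Q := by
      refine LinearMap.ext fun z => ?_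
      rw [LinearMap.sub_apply, LinearMap.comp_apply, LinearMap.comp_apply, LinearMap.comp_apply, LinearMap.comp_apply, hX', hY', hX', hY',
        ← lie_lie, hxy, hQ, LinearMap.sum_apply, LinearMap.sum_apply, lie_sum]
      refine Finset.sum_congr rfl fun φ _ => ?_
      rw [LinearMap.smul_apply, hP1 φ z a]
    rw [e1, map_sub, ht, sub_self]
  rw [map_sum] at h0
  rw [← h0]
  refine Finset.sum_congr rfl fun φ _ => ?_
  have h3 : LinearMap.IsProj (rsp A φ) (P φ) := ⟨fun z => hP1 φ z, fun z hz => hP2 φ z hz⟩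
  rw [map_smul, h3.trace, smul_eq_mul, mul_comm]

variable {ι : Type} [Fintype ι]

/-- Combinations of simple roots with coefficients in `ℕ`. -/
def PosC (al : ι → Module.Dual ℝ A) (φ : Module.Dual ℝ A) : Prop := ∃ c : ι → ℕ, φ = ∑ i, (c i : ℝ) • al i

/-- The positive restricted roots. -/
noncomputable def posF (b : Module.Basis (Fin N) ℝ L) (hA : MaxFlat θ A) (al : ι → Module.Dual ℝ A) : Finset (Module.Dual ℝ A) :=
  ((roots_finite b hA).subset (Set.inter_subset_left : rootsL A ∩ {φ | PosC al φ} ⊆ rootsL A)).toFinset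

theorem mem_posF (b : Module.Basis (Fin N) ℝ L) (hA : MaxFlat θ A) {al : ι → Module.Dual ℝ A} {φ : Module.Dual ℝ A} :
    φ ∈ posF b hA al ↔ φ ∈ rootsL A ∧ PosC al φ := by
  rw [posF, Set.Finite.mem_toFinset]
  rfl

theorem rsp_bot {φ : Module.Dual ℝ A} (h0 : φ ≠ 0) (h1 : φ ∉ rootsL A) : rsp A φ = ⊥ := by
  rw [eq_bot_iff]
  intro x hx
  rw [Submodule.mem_bot]
  exact Wv.eq_zero hx h1 h0

/-- The multiples of a root are the root and its double. -/
theorem mult_root (h : CartanBasis θ b) (hA : MaxFlat θ A) {τ : Module.Dual ℝ A ≃ₗ[ℝ] A}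
    (hτ : ∀ (φ : Module.Dual ℝ A) (a : A), killingForm ℝ L (τ φ : L) (a : L) = φ a) {α : Module.Dual ℝ A} (hα : α ∈ rootsL A) {k : ℕ}
    (hk : (k : ℝ) • α ∈ rootsL A) : k = 1 ∨ k = 2 := by
  have hp := tau_pos hτ h hA hα.1
  obtain ⟨n, hn, -⟩ := refl h hA hτ hα hk
  rw [map_smul, map_smul, map_smul, LinearMap.smul_apply, smul_eq_mul, smul_eq_mul] at hn
  have hk0 : (k : ℝ) ≠ 0 := fun h0 => hk.1 (by rw [h0, zero_smul])
  have h1 : (2 : ℝ) = n * k := by
    have h2 : (k : ℝ) * α (τ α) * (n * k - 2) = 0 := by linear_combination -hn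
    rcases mul_eq_zero.1 h2 with h3 | h3
    · rcases mul_eq_zero.1 h3 with h4 | h4
      · exact absurd h4 hk0
      · exact absurd h4 hp.ne'
    · linarith
  have h2 : (2 : ℤ) = n * k := by exact_mod_cast h1
  have h3 : (k : ℤ) ∣ 2 := ⟨n, by rw [h2]; ring⟩
  have h4 : k ∣ 2 := by exact_mod_cast h3
  exact (Nat.dvd_prime Nat.prime_two).1 h4

/-- `2 rho` on the simple coroots. -/
theorem rho_pair (h : CartanBasis θ b) (hA : MaxFlat θ A) {τ : Module.Dual ℝ A ≃ₗ[ℝ] A}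
    (hτ : ∀ (φ : Module.Dual ℝ A) (a : A), killingForm ℝ L (τ φ : L) (a : L) = φ a) {al : ι → Module.Dual ℝ A}
    (hli : LinearIndependent ℝ al) (hr : ∀ i, al i ∈ rootsL A)
    (hp : ∀ φ ∈ rootsL A, ∃ c : ι → ℕ, φ = ∑ i, (c i : ℝ) • al i ∨ φ = -∑ i, (c i : ℝ) • al i) (i : ι) :
    ∑ φ ∈ posF b hA al, (Module.finrank ℝ (rsp A φ) : ℝ) * φ (τ (al i)) =
      ((Module.finrank ℝ (rsp A (al i)) : ℝ) + 2 * Module.finrank ℝ (rsp A (al i + al i))) * al i (τ (al i)) := by
  classical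
  obtain ⟨S, hS⟩ : ∃ S : Finset (Module.Dual ℝ A), S = (posF b hA al).filter fun φ => ¬∃ k : ℕ, φ = (k : ℝ) • al i := ⟨_, rfl⟩
  obtain ⟨T, hT⟩ : ∃ T : Finset (Module.Dual ℝ A), T = (posF b hA al).filter fun φ => ∃ k : ℕ, φ = (k : ℝ) • al i := ⟨_, rfl⟩
  have hcf := Fintype.linearIndependent_iff.1 hli
  have huniq : ∀ c d : ι → ℝ, ∑ k, c k • al k = ∑ k, d k • al k → c = d := by
    intro c d hcd
    funext k
    have h1 : ∑ k, (c k - d k) • al k = 0 := by
      rw [← sub_eq_zero.2 hcd, ← Finset.sum_sub_distrib]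
      exact Finset.sum_congr rfl fun k _ => sub_smul (c k) (d k) (al k)
    linarith [hcf _ h1 k]
  have hsing : ∀ k : ℝ, k • al i = ∑ j, (if j = i then k else 0) • al j := by
    intro k
    simp only [ite_smul, zero_smul, Finset.sum_ite_eq', Finset.mem_univ, if_true]
  -- membership in `S`
  have hSm : ∀ φ, φ ∈ S ↔ φ ∈ rootsL A ∧ ∃ c : ι → ℕ, φ = ∑ k, (c k : ℝ) • al k ∧ ∃ j, j ≠ i ∧ 0 < c j := by
    intro φ
    rw [hS, Finset.mem_filter, mem_posF]
    constructor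
    · rintro ⟨⟨h1, c, hc⟩, h2⟩
      refine ⟨h1, c, hc, ?_⟩
      by_contra h3
      push Not at h3
      apply h2
      refine ⟨c i, ?_⟩
      rw [hc, hsing]
      refine Finset.sum_congr rfl fun j _ => ?_
      by_cases hj : j = i
      · rw [if_pos hj, hj]
      · have := Nat.le_zero.1 (h3 j hj)
        rw [if_neg hj, this, Nat.cast_zero]
    · rintro ⟨h1, c, hc, j, hj, hcj⟩
      refine ⟨⟨h1, c, hc⟩, ?_⟩
      rintro ⟨k, hk⟩
      rw [hc, hsing] at hk
      have h2 := congrFun (huniq (fun k => (c k : ℝ)) _ hk) j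
      simp only [if_neg hj] at h2
      have h3 : c j = 0 := by exact_mod_cast h2
      omega
  -- stability
  have hstab : ∀ s : ℤ, ∀ φ ∈ S, φ + (s : ℝ) • al i ∈ S ∨ rsp A (φ + (s : ℝ) • al i) = ⊥ := by
    intro s φ hφ
    obtain ⟨h1, c, hc, j, hj, hcj⟩ := (hSm φ).1 hφ
    have hval : φ + (s : ℝ) • al i = ∑ k, ((c k : ℝ) + if k = i then (s : ℝ) else 0) • al k := by
      simp only [add_smul, Finset.sum_add_distrib]
      rw [← hsing, hc]
    by_cases h2 : φ + (s : ℝ) • al i ∈ rootsL A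
    · left
      obtain ⟨d, hd | hd⟩ := hp _ h2
      · refine (hSm _).2 ⟨h2, d, hd, j, hj, ?_⟩
        have h3 := congrFun (huniq _ (fun k => (d k : ℝ)) (hval.symm.trans hd)) j
        simp only [if_neg hj, add_zero] at h3
        have h4 : c j = d j := by exact_mod_cast h3
        omega
      · exfalso
        have h3 := congrFun (huniq _ (fun k => -(d k : ℝ)) (hval.symm.trans (hd.trans (by
          rw [← Finset.sum_neg_distrib]
          exact Finset.sum_congr rfl fun k _ => (neg_smul _ _).symm)))) j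
        simp only [if_neg hj, add_zero] at h3
        have h4 : (0 : ℝ) < c j := by exact_mod_cast hcj
        have h5 : (0 : ℝ) ≤ d j := Nat.cast_nonneg _
        linarith
    · right
      refine rsp_bot (fun h3 => ?_) h2
      rw [hval] at h3
      have h4 := hcf _ h3 j
      simp only [if_neg hj, add_zero] at h4
      have h5 : c j = 0 := by exact_mod_cast h4
      omega
  -- the trace argument
  obtain ⟨-, x, hx0, hx⟩ := hr i
  have hxy : ⁅x, θ x⁆ = ((killingForm ℝ L x (θ x) • τ (al i) : A) : L) := by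
    rw [lie_theta_self hτ h hA hx]
    rfl
  have h3 := trace_zero h hA (χ := al i) (S := S) hx (Wv.theta hA hx) hxy (fun φ hφ => by
      have := hstab 1 φ hφ
      rwa [Int.cast_one, one_smul] at this) (fun φ hφ => by
      have := hstab (-1) φ hφ
      rw [show ((-1 : ℤ) : ℝ) • al i = -al i by rw [Int.cast_neg, Int.cast_one]; exact neg_one_smul ℝ (al i), ← sub_eq_add_neg] at this
      exact this)
  have hκ : killingForm ℝ L x (θ x) ≠ 0 := by
    have := pos h hx0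
    intro h4
    rw [h4, neg_zero] at this
    exact lt_irrefl _ this
  have h4 : ∑ φ ∈ S, (Module.finrank ℝ (rsp A φ) : ℝ) * φ (τ (al i)) = 0 := by
    have e1 : ∑ φ ∈ S, (Module.finrank ℝ (rsp A φ) : ℝ) * φ (killingForm ℝ L x (θ x) • τ (al i)) =
        killingForm ℝ L x (θ x) * ∑ φ ∈ S, (Module.finrank ℝ (rsp A φ) : ℝ) * φ (τ (al i)) := by
      rw [Finset.mul_sum]
      refine Finset.sum_congr rfl fun φ _ => ?_
      rw [map_smul, smul_eq_mul]
      ring
    rw [e1] at h3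
    exact (mul_eq_zero.1 h3).resolve_left hκ
  -- the multiples
  have hsplit : ∑ φ ∈ posF b hA al, (Module.finrank ℝ (rsp A φ) : ℝ) * φ (τ (al i)) =
      ∑ φ ∈ T, (Module.finrank ℝ (rsp A φ) : ℝ) * φ (τ (al i)) + ∑ φ ∈ S, (Module.finrank ℝ (rsp A φ) : ℝ) * φ (τ (al i)) := by
    rw [hS, hT]
    exact (Finset.sum_filter_add_sum_filter_not _ _ _).symm
  rw [hsplit, h4, add_zero]
  have hne : al i ≠ al i + al i := by
    intro h5
    have h6 : al i = 0 := by
      have := congrArg (fun z => z - al i) h5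
      simp only [sub_self, add_sub_cancel_right] at this
      exact this.symm
    exact (hr i).1 h6
  have hsub : T ⊆ {al i, al i + al i} := by
    intro φ hφ
    rw [hT, Finset.mem_filter, mem_posF] at hφ
    obtain ⟨⟨h5, -⟩, k, hk⟩ := hφ
    rw [hk] at h5
    rw [Finset.mem_insert, Finset.mem_singleton]
    rcases mult_root h hA hτ (hr i) h5 with h6 | h6
    · left
      rw [hk, h6, Nat.cast_one, one_smul]
    · right
      rw [hk, h6, Nat.cast_two, two_smul]
  rw [Finset.sum_subset hsub (fun φ hφ hφT => ?_), Finset.sum_pair hne, LinearMap.add_apply]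
  · ring
  · have h5 : φ ∉ rootsL A := by
      intro h6
      apply hφT
      rw [hT, Finset.mem_filter, mem_posF]
      rw [Finset.mem_insert, Finset.mem_singleton] at hφ
      have key : ∃ k : ℕ, φ = (k : ℝ) • al i := by
        rcases hφ with h7 | h7
        · exact ⟨1, by rw [h7, Nat.cast_one, one_smul]⟩
        · exact ⟨2, by rw [h7, Nat.cast_two, two_smul]⟩
      obtain ⟨k, hk⟩ := key
      refine ⟨⟨h6, fun j => if j = i then k else 0, ?_⟩, k, hk⟩
      rw [hk, hsing]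
      refine Finset.sum_congr rfl fun j _ => ?_
      by_cases hj : j = i
      · simp only [if_pos hj]
      · simp only [if_neg hj, Nat.cast_zero]
    have h6 : φ ≠ 0 := by
      rw [Finset.mem_insert, Finset.mem_singleton] at hφ
      rcases hφ with h7 | h7
      · rw [h7]; exact (hr i).1
      · rw [h7]
        intro h8
        exact (hr i).1 (by
          have h9 : (2 : ℝ) • al i = 0 := by rw [two_smul]; exact h8
          exact (smul_eq_zero.1 h9).resolve_left two_ne_zero)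
    rw [rsp_bot h6 h5, finrank_bot]
    simp

/-- The value of `2 rho`. -/
noncomputable def rho2 (b : Module.Basis (Fin N) ℝ L) (hA : MaxFlat θ A) (al : ι → Module.Dual ℝ A) (H : A) : ℝ :=
  ∑ φ ∈ posF b hA al, (Module.finrank ℝ (rsp A φ) : ℝ) * φ H

theorem rho2_coef [DecidableEq ι] (b : Module.Basis (Fin N) ℝ L) (hA : MaxFlat θ A) {al : ι → Module.Dual ℝ A} {om : ι → A}
    (hom : ∀ i j, al i (om j) = if i = j then 1 else 0) (H : A) : rho2 b hA al H = ∑ j, rho2 b hA al (om j) * al j H := by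
  simp only [rho2, Finset.sum_mul]
  rw [Finset.sum_comm]
  refine Finset.sum_congr rfl fun φ hφ => ?_
  obtain ⟨-, c, hc⟩ := (mem_posF b hA).1 hφ
  have h1 : ∀ j, φ (om j) = c j := by
    intro j
    rw [hc, LinearMap.sum_apply, Finset.sum_eq_single j]
    · rw [LinearMap.smul_apply, hom, if_pos rfl, smul_eq_mul, mul_one]
    · intro k _ hk
      rw [LinearMap.smul_apply, hom, if_neg hk, smul_eq_mul, mul_zero]
    · intro h2
      exact absurd (Finset.mem_univ _) h2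
  have h2 : φ H = ∑ j, c j * al j H := by
    rw [hc, LinearMap.sum_apply]
    exact Finset.sum_congr rfl fun j _ => by rw [LinearMap.smul_apply, smul_eq_mul]
  rw [h2, Finset.mul_sum]
  refine Finset.sum_congr rfl fun j _ => ?_
  rw [h1, mul_assoc]

theorem rho2_om_pos [DecidableEq ι] (b : Module.Basis (Fin N) ℝ L) (hA : MaxFlat θ A) {al : ι → Module.Dual ℝ A} (hr : ∀ i, al i ∈ rootsL A) {om : ι → A}
    (hom : ∀ i j, al i (om j) = if i = j then 1 else 0) (j : ι) : 0 < rho2 b hA al (om j) := by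
  have hF : Module.Finite ℝ L := Module.Finite.of_basis b
  have h1 : al j ∈ posF b hA al := by
    refine (mem_posF b hA).2 ⟨hr j, fun k => if k = j then 1 else 0, ?_⟩
    rw [Finset.sum_eq_single j]
    · simp
    · intro k _ hk
      simp [hk]
    · intro h2
      exact absurd (Finset.mem_univ _) h2
  have h2 : ∀ φ ∈ posF b hA al, 0 ≤ (Module.finrank ℝ (rsp A φ) : ℝ) * φ (om j) := by
    intro φ hφ
    obtain ⟨-, c, hc⟩ := (mem_posF b hA).1 hφ
    refine mul_nonneg (Nat.cast_nonneg _) ?_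
    rw [hc, LinearMap.sum_apply]
    refine Finset.sum_nonneg fun k _ => ?_
    rw [LinearMap.smul_apply, hom, smul_eq_mul]
    split_ifs <;> simp
  refine lt_of_lt_of_le ?_ (Finset.single_le_sum h2 h1)
  rw [hom, if_pos rfl, mul_one]
  obtain ⟨-, x, hx0, hx⟩ := hr j
  have h3 : rsp A (al j) ≠ ⊥ := by
    intro h4
    have h5 : x ∈ rsp A (al j) := hx
    rw [h4, Submodule.mem_bot] at h5
    exact hx0 h5
  have h4 : 0 < Module.finrank ℝ (rsp A (al j)) := by
    rw [Nat.pos_iff_ne_zero]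
    exact fun h5 => h3 (Submodule.finrank_eq_zero.1 h5)
  exact_mod_cast h4

variable {L' : Type} [LieRing L'] [LieAlgebra ℝ L'] {N' : ℕ} {θ' : L' ≃ₗ⁅ℝ⁆ L'} {b' : Module.Basis (Fin N') ℝ L'} {A' : Submodule ℝ L'}

/-- **Rank two**: the values of `2 rho` and the multiplicities of the simple roots determine the Cartan integers. -/
theorem cartan_of_rho (h : CartanBasis θ b) (hA : MaxFlat θ A) {τ : Module.Dual ℝ A ≃ₗ[ℝ] A}
    (hτ : ∀ (φ : Module.Dual ℝ A) (a : A), killingForm ℝ L (τ φ : L) (a : L) = φ a) {al : ι → Module.Dual ℝ A}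
    (hli : LinearIndependent ℝ al) (hr : ∀ i, al i ∈ rootsL A)
    (hp : ∀ φ ∈ rootsL A, ∃ c : ι → ℕ, φ = ∑ i, (c i : ℝ) • al i ∨ φ = -∑ i, (c i : ℝ) • al i)
    (h' : CartanBasis θ' b') (hA' : MaxFlat θ' A') {τ' : Module.Dual ℝ A' ≃ₗ[ℝ] A'}
    (hτ' : ∀ (φ : Module.Dual ℝ A') (a : A'), killingForm ℝ L' (τ' φ : L') (a : L') = φ a) {al' : ι → Module.Dual ℝ A'}
    (hli' : LinearIndependent ℝ al') (hr' : ∀ i, al' i ∈ rootsL A')
    (hp' : ∀ φ ∈ rootsL A', ∃ c : ι → ℕ, φ = ∑ i, (c i : ℝ) • al' i ∨ φ = -∑ i, (c i : ℝ) • al' i)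
    (hc : ∀ i j k : ι, i ≠ j → k = i ∨ k = j)
    (hR : ∀ (H : A) (H' : A'), (∀ i, 0 ≤ al i H) → (∀ i, al i H = al' i H') → rho2 b hA al H = rho2 b' hA' al' H')
    (hk : ∀ i, Module.finrank ℝ (rsp A (al i)) + 2 * Module.finrank ℝ (rsp A (al i + al i)) =
      Module.finrank ℝ (rsp A' (al' i)) + 2 * Module.finrank ℝ (rsp A' (al' i + al' i))) (i j : ι) :
    al j (τ (al i)) * al' i (τ' (al' i)) = al' j (τ' (al' i)) * al i (τ (al i)) := by
  classical
  have hF : Module.Finite ℝ L := Module.Finite.of_basis b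
  have hF' : Module.Finite ℝ L' := Module.Finite.of_basis b'
  rcases eq_or_ne i j with hij | hij
  · subst hij
    ring
  choose om hom using fun j : ι => Pool.Agent.Helper85.AE.exists_val hli fun i => if i = j then (1 : ℝ) else 0
  choose om' hom' using fun j : ι => Pool.Agent.Helper85.AE.exists_val hli' fun i => if i = j then (1 : ℝ) else 0
  have hn : ∀ k, rho2 b hA al (om k) = rho2 b' hA' al' (om' k) := by
    intro k
    refine hR _ _ (fun i => ?_) fun i => ?_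
    · rw [hom k i]
      split_ifs <;> norm_num
    · rw [hom k i, hom' k i]
  have h1 := rho_pair h hA hτ hli hr hp i
  have h1' := rho_pair h' hA' hτ' hli' hr' hp' i
  have h2 := rho2_coef b hA (fun i j => hom j i) (τ (al i))
  have h2' := rho2_coef b' hA' (fun i j => hom' j i) (τ' (al' i))
  have hu : (Finset.univ : Finset ι) = {i, j} := by
    ext k
    simp only [Finset.mem_univ, Finset.mem_insert, Finset.mem_singleton, true_iff]
    exact hc i j k hij
  rw [hu, Finset.sum_pair hij] at h2 h2'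
  have h3 : rho2 b hA al (τ (al i)) = ((Module.finrank ℝ (rsp A (al i)) : ℝ) + 2 * Module.finrank ℝ (rsp A (al i + al i))) * al i (τ (al i)) := h1
  have h3' : rho2 b' hA' al' (τ' (al' i)) =
      ((Module.finrank ℝ (rsp A' (al' i)) : ℝ) + 2 * Module.finrank ℝ (rsp A' (al' i + al' i))) * al' i (τ' (al' i)) := h1'
  have hk2 : (Module.finrank ℝ (rsp A (al i)) : ℝ) + 2 * Module.finrank ℝ (rsp A (al i + al i)) =
      (Module.finrank ℝ (rsp A' (al' i)) : ℝ) + 2 * Module.finrank ℝ (rsp A' (al' i + al' i)) := by exact_mod_cast hk i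
  have hpos := rho2_om_pos b hA hr (fun i j => hom j i) j
  rw [h2, hn i, hn j, hk2] at h3
  rw [h2'] at h3'
  rw [hn j] at hpos
  have h4 : rho2 b' hA' al' (om' j) * (al j (τ (al i)) * al' i (τ' (al' i)) - al' j (τ' (al' i)) * al i (τ (al i))) = 0 := by
    linear_combination al' i (τ' (al' i)) * h3 - al i (τ (al i)) * h3'
  rcases mul_eq_zero.1 h4 with h5 | h5
  · exact absurd h5 hpos.ne'
  · linarith

end Pool.Agent.Helper77.FQ
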